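import Mathlib

/-!
# Part A: a Motzkin–Straus type inequality

For points with values `q = a + b`, an edge `i < j` being present when `1 ≤ a i + b j`,
`∑_{edges} w i w j (2 - q i - q j) ≤ (∑ w) (∑ w q²)`.
-/

namespace Pool.Agent.R565.RDPCD

open Finset

lemma sumsq_le (V : Finset ℕ) (x : ℕ → ℝ) (hx : ∀ s ∈ V, 0 ≤ x s) :
    ∑ s ∈ V, x s ^ 2 ≤ (∑ s ∈ V, x s) ^ 2 := by
  rw [sq (∑ s ∈ V, x s), Finset.sum_mul]
  apply Finset.sum_le_sum
  intro s hs
  rw [sq]
  exact mul_le_mul_of_nonneg_left (Finset.single_le_sum (f := x) (fun i hi => hx i hi) hs) (hx s hs)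

lemma sumsq_erase (V : Finset ℕ) (x : ℕ → ℝ) (hx : ∀ s ∈ V, 0 ≤ x s) {u : ℕ} (hu : u ∈ V) :
    ∑ s ∈ V, x s ^ 2 ≤ (∑ s ∈ V, x s - x u) ^ 2 + x u ^ 2 := by
  have h1 : ∑ s ∈ V.erase u, x s ^ 2 ≤ (∑ s ∈ V.erase u, x s) ^ 2 :=
    sumsq_le _ _ (fun s hs => hx s (Finset.mem_of_mem_erase hs))
  have h2 : ∑ s ∈ V.erase u, x s + x u = ∑ s ∈ V, x s := Finset.sum_erase_add _ _ hu
  have h3 : ∑ s ∈ V.erase u, x s ^ 2 + x u ^ 2 = ∑ s ∈ V, x s ^ 2 :=
    Finset.sum_erase_add _ _ hu
  have h4 : ∑ s ∈ V, x s - x u = ∑ s ∈ V.erase u, x s := by linarith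
  rw [h4]; linarith

/-- the core inequality for a sub-probability vector `p` and nonnegative weights `w` -/
lemma core (V : Finset ℕ) (w p : ℕ → ℝ) (hw : ∀ s ∈ V, 0 ≤ w s) (hp : ∀ s ∈ V, 0 ≤ p s)
    (hP : ∑ s ∈ V, p s ≤ 1) :
    0 ≤ ∑ s ∈ V, w s * ((∑ t ∈ V, w t) * (1 - p s) ^ 2 - p s * ((∑ t ∈ V, w t) - w s)) := by
  set W := ∑ t ∈ V, w t with hW
  set P := ∑ t ∈ V, p t with hPdef
  have hW0 : 0 ≤ W := Finset.sum_nonneg hw
  -- power sums
  set Swp := ∑ s ∈ V, w s * p s with hSwp
  set Sw2p := ∑ s ∈ V, w s ^ 2 * p s with hSw2p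
  set Swp2 := ∑ s ∈ V, w s * p s ^ 2 with hSwp2
  set Sw2 := ∑ s ∈ V, w s ^ 2 with hSw2
  set Sp2 := ∑ s ∈ V, p s ^ 2 with hSp2
  have e0 : ∑ s ∈ V, w s * (W * (1 - p s) ^ 2 - p s * (W - w s))
      = W * W - 3 * W * Swp + W * Swp2 + Sw2p := by
    have : ∀ s ∈ V, w s * (W * (1 - p s) ^ 2 - p s * (W - w s))
        = W * w s - 3 * W * (w s * p s) + W * (w s * p s ^ 2) + w s ^ 2 * p s := by
      intro s _; ring
    rw [Finset.sum_congr rfl this, Finset.sum_add_distrib, Finset.sum_add_distrib,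
      Finset.sum_sub_distrib, ← Finset.mul_sum, ← Finset.mul_sum, ← Finset.mul_sum]
  have hD1 : 0 ≤ ∑ u ∈ V, p u * ((W - w u) ^ 2 + w u ^ 2 - Sw2) + (1 - P) * (W ^ 2 - Sw2) := by
    apply add_nonneg
    · apply Finset.sum_nonneg
      intro u hu
      apply mul_nonneg (hp u hu)
      have := sumsq_erase V w hw hu
      linarith
    · apply mul_nonneg (by linarith)
      have := sumsq_le V w hw
      linarith
  have e1 : ∑ u ∈ V, p u * ((W - w u) ^ 2 + w u ^ 2 - Sw2)
      = P * W ^ 2 - 2 * W * Swp + 2 * Sw2p - P * Sw2 := by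
    have : ∀ u ∈ V, p u * ((W - w u) ^ 2 + w u ^ 2 - Sw2)
        = W ^ 2 * p u - 2 * W * (w u * p u) + 2 * (w u ^ 2 * p u) - Sw2 * p u := by
      intro s _; ring
    rw [Finset.sum_congr rfl this, Finset.sum_sub_distrib, Finset.sum_add_distrib,
      Finset.sum_sub_distrib, ← Finset.mul_sum, ← Finset.mul_sum, ← Finset.mul_sum,
      ← Finset.mul_sum]
    ring
  have hD2 : 0 ≤ ∑ s ∈ V, w s * ((1 - p s) ^ 2 + p s ^ 2 - Sp2 - (1 - P) ^ 2) := by
    apply Finset.sum_nonneg
    intro s hs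
    apply mul_nonneg (hw s hs)
    have h1 := sumsq_erase V p hp hs
    have h2 : (∑ t ∈ V, p t - p s) ^ 2 + (1 - P) ^ 2 ≤ (1 - p s) ^ 2 := by
      have h3 : 0 ≤ ∑ t ∈ V, p t - p s := by
        have := Finset.single_le_sum (f := p) (fun i hi => hp i hi) hs
        linarith
      have h4 : 0 ≤ 1 - P := by linarith
      have h5 : (1 - p s) = (∑ t ∈ V, p t - p s) + (1 - P) := by rw [hPdef]; ring
      rw [h5]
      nlinarith [mul_nonneg h3 h4]
    linarith
  have e2 : ∑ s ∈ V, w s * ((1 - p s) ^ 2 + p s ^ 2 - Sp2 - (1 - P) ^ 2)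
      = W - 2 * Swp + 2 * Swp2 - W * Sp2 - W * (1 - P) ^ 2 := by
    have : ∀ s ∈ V, w s * ((1 - p s) ^ 2 + p s ^ 2 - Sp2 - (1 - P) ^ 2)
        = w s - 2 * (w s * p s) + 2 * (w s * p s ^ 2) - Sp2 * w s - (1 - P) ^ 2 * w s := by
      intro s _; ring
    rw [Finset.sum_congr rfl this, Finset.sum_sub_distrib, Finset.sum_sub_distrib,
      Finset.sum_add_distrib, Finset.sum_sub_distrib, ← Finset.mul_sum, ← Finset.mul_sum,
      ← Finset.mul_sum, ← Finset.mul_sum]
    ring
  have hD3 : 0 ≤ ∑ s ∈ V, (w s - W * p s) ^ 2 := Finset.sum_nonneg (fun s _ => sq_nonneg _)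
  have e3 : ∑ s ∈ V, (w s - W * p s) ^ 2 = Sw2 - 2 * W * Swp + W ^ 2 * Sp2 := by
    have : ∀ s ∈ V, (w s - W * p s) ^ 2
        = w s ^ 2 - 2 * W * (w s * p s) + W ^ 2 * p s ^ 2 := by
      intro s _; ring
    rw [Finset.sum_congr rfl this, Finset.sum_add_distrib, Finset.sum_sub_distrib,
      ← Finset.mul_sum, ← Finset.mul_sum]
  rw [e0]
  rw [e1] at hD1
  rw [e2] at hD2
  rw [e3] at hD3
  have hD2' := mul_nonneg hW0 hD2
  nlinarith [hD1, hD2', hD3, sq_nonneg (W * (1 - P))]

/-- in a clique the positive parts of `1 - q` sum to at most one -/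
lemma clique_sum (a b : ℕ → ℝ) (hb : ∀ s, 0 ≤ b s) (S : Finset ℕ) :
    (∀ s ∈ S, ∀ t ∈ S, s < t → 1 ≤ a s + b t) →
    ∀ m ∈ S, (∀ s ∈ S, s ≤ m) → ∑ s ∈ S, (1 - (a s + b s)) ≤ 1 - a m := by
  induction S using Finset.induction_on_max with
  | empty => intro _ m hm; simp at hm
  | insert M S' hM ih =>
    intro hadj m hm hmax
    have hMn : M ∉ S' := fun h => lt_irrefl _ (hM M h)
    have hmM : m = M := by
      apply le_antisymm
      · rcases Finset.mem_insert.1 hm with h | h
        · exact h.le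
        · exact (hM m h).le
      · exact hmax M (Finset.mem_insert_self _ _)
    subst hmM
    rw [Finset.sum_insert hMn]
    rcases S'.eq_empty_or_nonempty with h0 | hne
    · subst h0
      simp
      have := hb m
      linarith
    · have hm' := S'.max'_mem hne
      have ih' := ih (fun s hs t ht hst => hadj s (Finset.mem_insert_of_mem hs) t
        (Finset.mem_insert_of_mem ht) hst) (S'.max' hne) hm' (fun s hs => S'.le_max' s hs)
      have h1 := hadj (S'.max' hne) (Finset.mem_insert_of_mem hm') m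
        (Finset.mem_insert_self _ _) (hM _ hm')
      linarith

/-- the symmetric matrix of the quadratic form -/
noncomputable def Cm (a b : ℕ → ℝ) (s t : ℕ) : ℝ :=
  ((a s + b s) ^ 2 + (a t + b t) ^ 2) / 2
    - if (s < t ∧ 1 ≤ a s + b t) ∨ (t < s ∧ 1 ≤ a t + b s) then
        (2 - (a s + b s) - (a t + b t)) / 2 else 0

lemma Cm_symm (a b : ℕ → ℝ) (s t : ℕ) : Cm a b s t = Cm a b t s := by
  unfold Cm
  by_cases h : (s < t ∧ 1 ≤ a s + b t) ∨ (t < s ∧ 1 ≤ a t + b s)
  · have h' : (t < s ∧ 1 ≤ a t + b s) ∨ (s < t ∧ 1 ≤ a s + b t) := h.symm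
    rw [if_pos h, if_pos h']; ring
  · have h' : ¬ ((t < s ∧ 1 ≤ a t + b s) ∨ (s < t ∧ 1 ≤ a s + b t)) := fun h' => h h'.symm
    rw [if_neg h, if_neg h']; ring

noncomputable def QF (a b : ℕ → ℝ) (V : Finset ℕ) (w : ℕ → ℝ) : ℝ :=
  ∑ s ∈ V, ∑ t ∈ V, Cm a b s t * w s * w t

lemma QF_insert (a b : ℕ → ℝ) (V : Finset ℕ) (w : ℕ → ℝ) (i : ℕ) (hi : i ∉ V) :
    QF a b (insert i V) w = QF a b V w + 2 * w i * (∑ t ∈ V, Cm a b i t * w t)
      + Cm a b i i * w i ^ 2 := by
  unfold QF
  rw [Finset.sum_insert hi, Finset.sum_insert hi]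
  have h1 : ∀ s ∈ V, ∑ t ∈ insert i V, Cm a b s t * w s * w t
      = Cm a b i s * w s * w i + ∑ t ∈ V, Cm a b s t * w s * w t := by
    intro s _
    rw [Finset.sum_insert hi, Cm_symm a b s i]
  rw [Finset.sum_congr rfl h1, Finset.sum_add_distrib, ← Finset.sum_mul]
  have h2 : ∑ t ∈ V, Cm a b i t * w i * w t = w i * ∑ t ∈ V, Cm a b i t * w t := by
    rw [Finset.mul_sum]; apply Finset.sum_congr rfl; intro t _; ring
  rw [h2]; ring

lemma QF_congr (a b : ℕ → ℝ) (V : Finset ℕ) (w w' : ℕ → ℝ) (h : ∀ s ∈ V, w s = w' s) :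
    QF a b V w = QF a b V w' := by
  unfold QF
  apply Finset.sum_congr rfl; intro s hs
  apply Finset.sum_congr rfl; intro t ht
  rw [h s hs, h t ht]

theorem QF_nonneg (a b : ℕ → ℝ) (ha : ∀ s, 0 ≤ a s) (hb : ∀ s, 0 ≤ b s) :
    ∀ (m : ℕ) (V : Finset ℕ), V.card = m → ∀ w : ℕ → ℝ, (∀ s, 0 ≤ w s) → 0 ≤ QF a b V w := by
  intro m
  induction m using Nat.strong_induction_on with
  | _ m ih =>
  intro V hV w hw
  by_cases hcl : ∀ s ∈ V, ∀ t ∈ V, s < t → 1 ≤ a s + b t
  · -- clique
    have hS : ∀ S ⊆ V, ∑ s ∈ S, (1 - (a s + b s)) ≤ 1 := by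
      intro S hSV
      rcases S.eq_empty_or_nonempty with h0 | hne
      · subst h0; simp
      · have := clique_sum a b hb S (fun s hs t ht => hcl s (hSV hs) t (hSV ht)) (S.max' hne)
          (S.max'_mem hne) (fun s hs => S.le_max' s hs)
        have := ha (S.max' hne)
        linarith
    set W := ∑ t ∈ V, w t with hWdef
    set p : ℕ → ℝ := fun s => max (1 - (a s + b s)) 0 with hp
    have hP : ∑ s ∈ V, p s ≤ 1 := by
      have h1 : ∑ s ∈ V, p s = ∑ s ∈ V.filter (fun s => 0 ≤ 1 - (a s + b s)),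
          (1 - (a s + b s)) := by
        rw [Finset.sum_filter]
        apply Finset.sum_congr rfl
        intro s _
        simp only [hp]
        split_ifs with h
        · exact max_eq_left h
        · exact max_eq_right (le_of_not_ge h)
      rw [h1]
      exact hS _ (Finset.filter_subset _ _)
    have hcore := core V w p (fun s _ => hw s) (fun s _ => le_max_right _ _) hP
    have hQ : QF a b V w = ∑ s ∈ V, w s * (W * (a s + b s) ^ 2
        - (1 - (a s + b s)) * (W - w s)) := by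
      -- double sum
      have h1 : ∀ s ∈ V, ∀ t ∈ V, Cm a b s t * w s * w t
          = (w s * (a s + b s) ^ 2 * w t + w t * (a t + b t) ^ 2 * w s) / 2
            - ((1 - (a s + b s)) * w s * w t + (1 - (a t + b t)) * w t * w s) / 2
            + (if s = t then (1 - (a s + b s)) * w s * w s else 0) := by
        intro s hs t ht
        unfold Cm
        rcases lt_trichotomy s t with h | h | h
        · rw [if_pos (Or.inl ⟨h, hcl s hs t ht h⟩), if_neg h.ne]; ring
        · subst h
          rw [if_neg (by rintro (h | h) <;> exact lt_irrefl _ h.1), if_pos rfl]; ring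
        · rw [if_pos (Or.inr ⟨h, hcl t ht s hs h⟩), if_neg h.ne']; ring
      unfold QF
      rw [Finset.sum_congr rfl (fun s hs => Finset.sum_congr rfl (fun t ht => h1 s hs t ht))]
      have h2 : ∀ s ∈ V, ∑ t ∈ V, ((w s * (a s + b s) ^ 2 * w t + w t * (a t + b t) ^ 2 * w s) / 2
            - ((1 - (a s + b s)) * w s * w t + (1 - (a t + b t)) * w t * w s) / 2
            + (if s = t then (1 - (a s + b s)) * w s * w s else 0))
          = (w s * (a s + b s) ^ 2 * W + (∑ t ∈ V, w t * (a t + b t) ^ 2) * w s) / 2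
            - ((1 - (a s + b s)) * w s * W + (∑ t ∈ V, (1 - (a t + b t)) * w t) * w s) / 2
            + (1 - (a s + b s)) * w s * w s := by
        intro s hs
        rw [Finset.sum_add_distrib, Finset.sum_sub_distrib, ← Finset.sum_div, ← Finset.sum_div,
          Finset.sum_add_distrib, Finset.sum_add_distrib, ← Finset.mul_sum, ← Finset.mul_sum,
          ← Finset.sum_mul, ← Finset.sum_mul, Finset.sum_ite_eq V s, if_pos hs]
      rw [Finset.sum_congr rfl h2, Finset.sum_add_distrib, Finset.sum_sub_distrib,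
        ← Finset.sum_div, ← Finset.sum_div, Finset.sum_add_distrib, Finset.sum_add_distrib,
        ← Finset.sum_mul, ← Finset.sum_mul, ← Finset.mul_sum, ← Finset.mul_sum, ← hWdef]
      have h3 : ∑ s ∈ V, w s * (W * (a s + b s) ^ 2 - (1 - (a s + b s)) * (W - w s))
          = W * (∑ s ∈ V, w s * (a s + b s) ^ 2) - W * (∑ s ∈ V, (1 - (a s + b s)) * w s)
            + ∑ s ∈ V, (1 - (a s + b s)) * w s * w s := by
        rw [Finset.mul_sum, Finset.mul_sum, ← Finset.sum_sub_distrib, ← Finset.sum_add_distrib]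
        apply Finset.sum_congr rfl; intro s _; ring
      rw [h3]; ring
    rw [hQ]
    refine hcore.trans ?_
    apply Finset.sum_le_sum
    intro s hs
    apply mul_le_mul_of_nonneg_left _ (hw s)
    have hWs : w s ≤ W := Finset.single_le_sum (f := w) (fun i _ => hw i) hs
    have hW0 : 0 ≤ W := (hw s).trans hWs
    by_cases h : 0 ≤ 1 - (a s + b s)
    · have : p s = 1 - (a s + b s) := max_eq_left h
      rw [this]
      have : (1 - (1 - (a s + b s))) = a s + b s := by ring
      rw [this]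
    · have : p s = 0 := max_eq_right (le_of_not_ge h)
      rw [this]
      push Not at h
      have h1 : W * 1 ≤ W * (a s + b s) ^ 2 := by
        apply mul_le_mul_of_nonneg_left _ hW0
        nlinarith
      have h2 : 0 ≤ -(1 - (a s + b s)) * (W - w s) :=
        mul_nonneg (by linarith) (by linarith)
      nlinarith
  · -- a non-adjacent pair
    push Not at hcl
    obtain ⟨i, hi, j, hj, hij, hlt⟩ := hcl
    set V' := (V.erase i).erase j with hV'
    have hjV' : j ∉ V' := Finset.notMem_erase _ _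
    have hji : j ∈ V.erase i := Finset.mem_erase.2 ⟨hij.ne', hj⟩
    have hVi : insert j V' = V.erase i := Finset.insert_erase hji
    have hiV' : i ∉ insert j V' := by rw [hVi]; exact Finset.notMem_erase _ _
    have hiV'' : i ∉ V' := fun h => hiV' (Finset.mem_insert_of_mem h)
    have hVV : insert i (insert j V') = V := by rw [hVi]; exact Finset.insert_erase hi
    have hcard : V'.card + 2 = m := by
      rw [← hV, ← hVV, Finset.card_insert_of_notMem hiV', Finset.card_insert_of_notMem hjV']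
    -- coefficient relation
    have hC : 2 * Cm a b i j = Cm a b i i + Cm a b j j := by
      unfold Cm
      have h1 : ¬ ((i < j ∧ 1 ≤ a i + b j) ∨ (j < i ∧ 1 ≤ a j + b i)) := by
        rintro (h | h)
        · linarith [h.2]
        · exact absurd h.1 (by omega)
      rw [if_neg h1]
      simp
      ring
    set T := QF a b V' w with hT
    set α := ∑ t ∈ V', Cm a b i t * w t with hα
    set β := ∑ t ∈ V', Cm a b j t * w t with hβ
    have hB : QF a b V w = T + 2 * w i * α + 2 * w j * β + Cm a b i i * w i ^ 2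
        + Cm a b j j * w j ^ 2 + 2 * Cm a b i j * w i * w j := by
      rw [← hVV, QF_insert a b _ w i hiV', QF_insert a b _ w j hjV', Finset.sum_insert hjV']
      rw [← hT, ← hα, ← hβ]; ring
    set w1 : ℕ → ℝ := fun s => if s = i then w i + w j else w s with hw1
    set w2 : ℕ → ℝ := fun s => if s = j then w i + w j else w s with hw2
    have hB1 : QF a b (insert i V') w1 = T + 2 * (w i + w j) * α
        + Cm a b i i * (w i + w j) ^ 2 := by
      rw [QF_insert a b _ w1 i hiV'']
      have e1 : QF a b V' w1 = T := by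
        apply QF_congr
        intro s hs
        have : s ≠ i := fun h => hiV'' (h ▸ hs)
        simp [hw1, this]
      have e2 : ∑ t ∈ V', Cm a b i t * w1 t = α := by
        apply Finset.sum_congr rfl
        intro s hs
        have : s ≠ i := fun h => hiV'' (h ▸ hs)
        simp [hw1, this]
      rw [e1, e2]; simp [hw1]
    have hB2 : QF a b (insert j V') w2 = T + 2 * (w i + w j) * β
        + Cm a b j j * (w i + w j) ^ 2 := by
      rw [QF_insert a b _ w2 j hjV']
      have e1 : QF a b V' w2 = T := by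
        apply QF_congr
        intro s hs
        have : s ≠ j := fun h => hjV' (h ▸ hs)
        simp [hw2, this]
      have e2 : ∑ t ∈ V', Cm a b j t * w2 t = β := by
        apply Finset.sum_congr rfl
        intro s hs
        have : s ≠ j := fun h => hjV' (h ▸ hs)
        simp [hw2, this]
      rw [e1, e2]; simp [hw2]
    have hpos1 : 0 ≤ QF a b (insert i V') w1 := by
      apply ih (V'.card + 1) (by omega) _ (Finset.card_insert_of_notMem hiV'')
      intro s
      simp only [hw1]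
      split_ifs
      · exact add_nonneg (hw i) (hw j)
      · exact hw s
    have hpos2 : 0 ≤ QF a b (insert j V') w2 := by
      apply ih (V'.card + 1) (by omega) _ (Finset.card_insert_of_notMem hjV')
      intro s
      simp only [hw2]
      split_ifs
      · exact add_nonneg (hw i) (hw j)
      · exact hw s
    rcases (add_nonneg (hw i) (hw j)).eq_or_lt with h0 | hpos
    · have hi0 : w i = 0 := by linarith [hw i, hw j]
      have hj0 : w j = 0 := by linarith [hw i, hw j]
      have hT0 : 0 ≤ T := ih V'.card (by omega) V' rfl w hw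
      rw [hB, hi0, hj0]; simpa using hT0
    · have key : (w i + w j) * QF a b V w
          = w i * QF a b (insert i V') w1 + w j * QF a b (insert j V') w2 := by
        rw [hB, hB1, hB2, hC]; ring
      have : 0 ≤ (w i + w j) * QF a b V w := by
        rw [key]
        exact add_nonneg (mul_nonneg (hw i) hpos1) (mul_nonneg (hw j) hpos2)
      exact nonneg_of_mul_nonneg_right this hpos

/-- The unweighted form used below. -/
theorem ms_range (a b : ℕ → ℝ) (ha : ∀ s, 0 ≤ a s) (hb : ∀ s, 0 ≤ b s) (M : ℕ) :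
    ∑ s ∈ range M, ∑ t ∈ range M,
      (if s < t ∧ 1 ≤ a s + b t then (2 - (a s + b s) - (a t + b t)) else 0)
      ≤ (M : ℝ) * ∑ s ∈ range M, (a s + b s) ^ 2 := by
  have h := QF_nonneg a b ha hb _ (range M) rfl (fun _ => 1) (fun _ => zero_le_one)
  have h1 : QF a b (range M) (fun _ => 1) = (M : ℝ) * ∑ s ∈ range M, (a s + b s) ^ 2
      - ∑ s ∈ range M, ∑ t ∈ range M,
      (if s < t ∧ 1 ≤ a s + b t then (2 - (a s + b s) - (a t + b t)) else 0) := by
    unfold QF
    have h2 : ∀ s ∈ range M, ∀ t ∈ range M, Cm a b s t * (fun _ => (1:ℝ)) s * (fun _ => (1:ℝ)) t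
        = ((a s + b s) ^ 2 + (a t + b t) ^ 2) / 2
          - (if s < t ∧ 1 ≤ a s + b t then (2 - (a s + b s) - (a t + b t)) else 0) / 2
          - (if t < s ∧ 1 ≤ a t + b s then (2 - (a t + b t) - (a s + b s)) else 0) / 2 := by
      intro s _ t _
      unfold Cm
      by_cases h3 : s < t ∧ 1 ≤ a s + b t
      · have h4 : ¬ (t < s ∧ 1 ≤ a t + b s) := fun h4 => absurd h4.1 (by omega)
        rw [if_pos (Or.inl h3), if_pos h3, if_neg h4]; ring
      · by_cases h4 : t < s ∧ 1 ≤ a t + b s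
        · rw [if_pos (Or.inr h4), if_neg h3, if_pos h4]; ring
        · rw [if_neg (by tauto), if_neg h3, if_neg h4]; ring
    rw [Finset.sum_congr rfl (fun s hs => Finset.sum_congr rfl (fun t ht => h2 s hs t ht))]
    simp only [Finset.sum_sub_distrib, ← Finset.sum_div, Finset.sum_add_distrib,
      Finset.sum_const, Finset.card_range, nsmul_eq_mul, ← Finset.mul_sum]
    have h5 : ∑ s ∈ range M, ∑ t ∈ range M,
        (if t < s ∧ 1 ≤ a t + b s then (2 - (a t + b t) - (a s + b s)) else 0)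
        = ∑ s ∈ range M, ∑ t ∈ range M,
        (if s < t ∧ 1 ≤ a s + b t then (2 - (a s + b s) - (a t + b t)) else 0) :=
      Finset.sum_comm
    rw [h5]; ring
  rw [h1] at h
  linarith

end Pool.Agent.R565.RDPCD
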