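import Mathlib
import Pool.Agent.R565.RDPCDa

/-!
# Part B: the discrete circle `ℤ / 2M`
-/

namespace Pool.Agent.R565.RDPCD

open Finset

/-- distance to the nearest multiple of `L` -/
def dl (L : ℤ) (u : ℤ) : ℤ := min (u % L) (L - u % L)

lemma dl_add (L u : ℤ) : dl L (u + L) = dl L u := by
  unfold dl; rw [Int.add_emod_right]

lemma dl_step (M : ℤ) (hM : 1 ≤ M) (u : ℤ) (h1 : 1 ≤ u) (h2 : u ≤ 2 * M) :
    dl (2 * M) (u - 1) - dl (2 * M) u = if u ≤ M then -1 else 1 := by
  unfold dl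
  have e1 : (u - 1) % (2 * M) = u - 1 := Int.emod_eq_of_lt (by omega) (by omega)
  rw [e1]
  rcases h2.eq_or_lt with h | h
  · have e2 : u % (2 * M) = 0 := by rw [h]; exact Int.emod_self
    rw [e2]
    split_ifs <;> omega
  · have e2 : u % (2 * M) = u := Int.emod_eq_of_lt (by omega) h
    rw [e2]
    split_ifs <;> omega

lemma dl_antipode (M : ℤ) (hM : 1 ≤ M) (u : ℤ) : dl (2 * M) u + dl (2 * M) (u - M) = M := by
  unfold dl
  have h0 := Int.emod_nonneg u (show (2 * M) ≠ 0 by omega)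
  have h1 := Int.emod_lt_of_pos u (show 0 < 2 * M by omega)
  have h2 : u = 2 * M * (u / (2 * M)) + u % (2 * M) := (Int.mul_ediv_add_emod u (2 * M)).symm
  set r := u % (2 * M) with hr
  by_cases h : M ≤ r
  · have e : (u - M) % (2 * M) = r - M := by
      rw [show u - M = (r - M) + 2 * M * (u / (2 * M)) by linarith, Int.add_mul_emod_self_left]
      exact Int.emod_eq_of_lt (by omega) (by omega)
    rw [e]; omega
  · have e : (u - M) % (2 * M) = r + M := by
      rw [show u - M = (r + M) + 2 * M * (u / (2 * M) - 1) by linarith,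
        Int.add_mul_emod_self_left]
      exact Int.emod_eq_of_lt (by omega) (by omega)
    rw [e]; omega

/-- integer social cost of the location `p` for reports `Y 0, …, Y (n-1)` -/
def SCi (L : ℤ) (n : ℕ) (Y : ℤ → ℤ) (p : ℤ) : ℤ := ∑ i ∈ range n, dl L (Y i - p)

lemma shift_one {α : Type*} [AddCommGroup α] (n : ℕ) (g : ℤ → α) (hg : ∀ i, g (i + n) = g i) :
    ∑ i ∈ range n, g ((i : ℤ) + 1) = ∑ i ∈ range n, g i := by
  have h1 := Finset.sum_range_succ' (fun i : ℕ => g (i : ℤ)) n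
  have h2 := Finset.sum_range_succ (fun i : ℕ => g (i : ℤ)) n
  have h3 : g (n : ℤ) = g 0 := by have := hg 0; simpa using this
  simp only [Nat.cast_add, Nat.cast_one, Nat.cast_zero] at h1
  rw [h2, h3] at h1
  exact (add_right_cancel h1).symm

lemma shift_int {α : Type*} [AddCommGroup α] (n : ℕ) (g : ℤ → α) (hg : ∀ i, g (i + n) = g i)
    (s : ℤ) : ∑ i ∈ range n, g ((i : ℤ) + s) = ∑ i ∈ range n, g i := by
  induction s using Int.induction_on with
  | zero => simp
  | succ s ih =>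
    rw [← ih]
    have := shift_one n (fun i => g (i + s)) (fun i => by
      have := hg (i + s)
      rw [show i + (n : ℤ) + s = i + s + n by ring]; exact this)
    rw [← this]
    apply Finset.sum_congr rfl; intro i _
    congr 1; ring
  | pred s ih =>
    rw [← ih]
    have := shift_one n (fun i => g (i + (-s - 1))) (fun i => by
      have := hg (i + (-s - 1))
      rw [show i + (n : ℤ) + (-s - 1) = i + (-s - 1) + n by ring]; exact this)
    rw [← this]
    apply Finset.sum_congr rfl; intro i _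
    congr 1; ring

lemma sum_ite_lt (n : ℕ) (q : ℤ) (h0 : 0 ≤ q) (hq : q ≤ n) :
    ∑ i ∈ range n, (if ((i : ℤ) < q) then (-1 : ℤ) else 1) = n - 2 * q := by
  induction n generalizing q with
  | zero => simp at hq ⊢; omega
  | succ n ih =>
    rw [Finset.sum_range_succ]
    rcases hq.eq_or_lt with h | h
    · have h1 : ∑ i ∈ range n, (if ((i : ℤ) < q) then (-1 : ℤ) else 1) = -n := by
        have : ∀ i ∈ range n, (if ((i : ℤ) < q) then (-1 : ℤ) else 1) = -1 := by
          intro i hi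
          rw [if_pos]
          have := mem_range.1 hi
          push_cast at h
          omega
        rw [Finset.sum_congr rfl this]; simp
      rw [h1, if_pos (by push_cast at h; omega)]
      push_cast at h ⊢; omega
    · push_cast at h
      rw [ih q h0 (by omega), if_neg (by omega)]
      push_cast; ring

/-- telescoping over an index interval inside `range n` -/
lemma tele (F : ℤ → ℤ) (n : ℕ) : ∀ (α β : ℤ), 0 ≤ α → α ≤ β → β ≤ n →
    ∑ i ∈ range n, (if α < (i : ℤ) + 1 ∧ (i : ℤ) + 1 ≤ β then F ((i : ℤ) + 1 + 1) - F ((i : ℤ) + 1)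
      else 0) = F (β + 1) - F (α + 1) := by
  induction n with
  | zero =>
    intro α β h1 h2 h3
    simp at h3
    have : α = β := by omega
    simp [this]
  | succ n ih =>
    intro α β h1 h2 h3
    push_cast at h3
    rw [Finset.sum_range_succ]
    rcases h3.eq_or_lt with h | h
    · subst h
      rcases h2.eq_or_lt with h' | h'
      · subst h'
        rw [if_neg (by omega)]
        have : ∀ i ∈ range n, (if ((n : ℤ) + 1) < (i : ℤ) + 1 ∧ (i : ℤ) + 1 ≤ (n : ℤ) + 1
            then F ((i : ℤ) + 1 + 1) - F ((i : ℤ) + 1) else 0) = 0 := by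
          intro i hi
          have := mem_range.1 hi
          rw [if_neg (by omega)]
        rw [Finset.sum_congr rfl this]; simp
      · rw [if_pos (by constructor <;> omega)]
        have h4 := ih α n h1 (by omega) le_rfl
        have h5 : ∀ i ∈ range n, (if α < (i : ℤ) + 1 ∧ (i : ℤ) + 1 ≤ (n : ℤ) + 1
            then F ((i : ℤ) + 1 + 1) - F ((i : ℤ) + 1) else 0)
            = (if α < (i : ℤ) + 1 ∧ (i : ℤ) + 1 ≤ (n : ℤ)
            then F ((i : ℤ) + 1 + 1) - F ((i : ℤ) + 1) else 0) := by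
          intro i hi
          have := mem_range.1 hi
          by_cases h6 : α < (i : ℤ) + 1
          · rw [if_pos ⟨h6, by omega⟩, if_pos ⟨h6, by omega⟩]
          · rw [if_neg (by omega), if_neg (by omega)]
        rw [Finset.sum_congr rfl h5, h4]; ring
    · rw [ih α β h1 h2 (by omega), if_neg (by omega)]; ring

lemma count_lt (M : ℕ) (y : ℤ) (h0 : 0 ≤ y) (h1 : y ≤ M) :
    ∑ z ∈ range M, (if (z : ℤ) < y then (1 : ℤ) else 0) = y := by
  have h := sum_ite_lt M y h0 h1
  have h2 : ∀ z ∈ range M, (if ((z : ℤ) < y) then (-1 : ℤ) else 1)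
      = 1 - 2 * (if (z : ℤ) < y then (1 : ℤ) else 0) := by
    intro z _; split_ifs <;> ring
  rw [Finset.sum_congr rfl h2, Finset.sum_sub_distrib, ← Finset.mul_sum] at h
  simp at h
  simpa using h

lemma count_ge (M : ℕ) (y : ℤ) (h0 : 0 ≤ y) (h1 : y ≤ M) :
    ∑ z ∈ range M, (if y ≤ (z : ℤ) then (1 : ℤ) else 0) = M - y := by
  have h := count_lt M y h0 h1
  have h2 : ∀ z ∈ range M, (if y ≤ (z : ℤ) then (1 : ℤ) else 0)
      = 1 - (if (z : ℤ) < y then (1 : ℤ) else 0) := by
    intro z _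
    by_cases h3 : y ≤ (z : ℤ)
    · rw [if_pos h3, if_neg (by omega)]; ring
    · rw [if_neg h3, if_pos (by omega)]; ring
  rw [Finset.sum_congr rfl h2, Finset.sum_sub_distrib, h]
  simp

section main

variable (k M : ℕ) (Y E : ℤ → ℤ)

/-- the standing hypotheses: `E` is the counting function of the periodic monotone
sequence `Y` -/
structure Good : Prop where
  hM : 1 ≤ M
  gal : ∀ i t, Y i ≤ t ↔ i ≤ E t
  per : ∀ i, Y (i + ((2 * k + 1 : ℕ) : ℤ)) = Y i + 2 * (M : ℤ)

variable {k M Y E}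

lemma Good.Eper (h : Good k M Y E) (t : ℤ) : E (t + 2 * M) = E t + ((2 * k + 1 : ℕ) : ℤ) := by
  have key : ∀ i, i ≤ E (t + 2 * M) ↔ i ≤ E t + ((2 * k + 1 : ℕ) : ℤ) := by
    intro i
    rw [← h.gal]
    have h1 := h.per (i - ((2 * k + 1 : ℕ) : ℤ))
    rw [sub_add_cancel] at h1
    rw [h1, add_le_add_iff_right, h.gal]
    constructor <;> intro h2 <;> omega
  exact le_antisymm ((key _).1 le_rfl) ((key _).2 le_rfl)

lemma Good.Emono (h : Good k M Y E) {s t : ℤ} (hst : s ≤ t) : E s ≤ E t := by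
  rw [← h.gal]
  exact le_trans ((h.gal _ _).2 le_rfl) hst

lemma Good.Ymono (h : Good k M Y E) {s t : ℤ} (hst : s ≤ t) : Y s ≤ Y t := by
  rw [h.gal]
  exact le_trans hst ((h.gal _ _).1 le_rfl)

lemma Good.dlper (h : Good k M Y E) (p i : ℤ) :
    dl (2 * M) (Y (i + ((2 * k + 1 : ℕ) : ℤ)) - p) = dl (2 * M) (Y i - p) := by
  rw [h.per, show Y i + 2 * (M : ℤ) - p = (Y i - p) + 2 * M by ring, dl_add]

lemma Good.SC_shift (h : Good k M Y E) (p s : ℤ) :
    SCi (2 * M) (2 * k + 1) Y p = ∑ i ∈ range (2 * k + 1), dl (2 * M) (Y ((i : ℤ) + s) - p) :=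
  (shift_int (2 * k + 1) (fun i => dl (2 * M) (Y i - p)) (fun i => h.dlper p i) s).symm

/-- number of agents in the half circle following `t` -/
def Qf (M : ℕ) (E : ℤ → ℤ) (t : ℤ) : ℤ := E (t + M) - E t

lemma Good.SC_step (h : Good k M Y E) (p : ℤ) :
    SCi (2 * M) (2 * k + 1) Y (p + 1) - SCi (2 * M) (2 * k + 1) Y p
      = ((2 * k + 1 : ℕ) : ℤ) - 2 * Qf M E p := by
  rw [h.SC_shift (p + 1) (E p + 1), h.SC_shift p (E p + 1), ← Finset.sum_sub_distrib]
  have hQ0 : 0 ≤ Qf M E p := by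
    unfold Qf; have := h.Emono (show p ≤ p + M by omega); omega
  have hQ1 : Qf M E p ≤ ((2 * k + 1 : ℕ) : ℤ) := by
    unfold Qf
    have := h.Emono (show p + M ≤ p + 2 * M by omega)
    rw [h.Eper] at this
    omega
  rw [← sum_ite_lt (2 * k + 1) (Qf M E p) hQ0 hQ1]
  apply Finset.sum_congr rfl
  intro i hi
  have hi' := mem_range.1 hi
  have h1 : 1 ≤ Y ((i : ℤ) + (E p + 1)) - p := by
    have : ¬ (Y ((i : ℤ) + (E p + 1)) ≤ p) := by rw [h.gal]; omega
    omega
  have h2 : Y ((i : ℤ) + (E p + 1)) - p ≤ 2 * M := by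
    have : Y ((i : ℤ) + (E p + 1)) ≤ p + 2 * M := by
      rw [h.gal, h.Eper]; push_cast; omega
    omega
  have h3 := dl_step (M : ℤ) (by have := h.hM; omega) _ h1 h2
  rw [show Y ((i : ℤ) + (E p + 1)) - (p + 1) = Y ((i : ℤ) + (E p + 1)) - p - 1 by ring, h3]
  have h4 : (Y ((i : ℤ) + (E p + 1)) - p ≤ M) ↔ ((i : ℤ) < Qf M E p) := by
    unfold Qf
    rw [show (Y ((i : ℤ) + (E p + 1)) - p ≤ M) ↔ (Y ((i : ℤ) + (E p + 1)) ≤ p + M) by
      constructor <;> intro h5 <;> omega, h.gal]
    constructor <;> intro h5 <;> omega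
  by_cases h5 : (i : ℤ) < Qf M E p
  · rw [if_pos (h4.2 h5), if_pos h5]
  · rw [if_neg (fun h6 => h5 (h4.1 h6)), if_neg h5]

/-- the slope function -/
def ff (k M : ℕ) (E : ℤ → ℤ) (t : ℤ) : ℤ := ((2 * k + 1 : ℕ) : ℤ) - 2 * Qf M E t

lemma Good.Q_anti (h : Good k M Y E) (t : ℤ) :
    Qf M E (t + M) = ((2 * k + 1 : ℕ) : ℤ) - Qf M E t := by
  unfold Qf
  rw [show t + (M : ℤ) + M = t + 2 * M by ring, h.Eper]; ring

lemma Good.ff_anti (h : Good k M Y E) (t : ℤ) : ff k M E (t + M) = - ff k M E t := by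
  unfold ff; rw [h.Q_anti]; ring

lemma Good.SC_formula (h : Good k M Y E) : ∀ p : ℕ, p ≤ 2 * M →
    SCi (2 * M) (2 * k + 1) Y p = SCi (2 * M) (2 * k + 1) Y 0
      + ∑ t ∈ range M, (if t < p ∧ p ≤ t + M then ff k M E t else 0) := by
  intro p
  induction p with
  | zero =>
    intro _
    have : ∀ t ∈ range M, (if t < 0 ∧ 0 ≤ t + M then ff k M E t else 0) = 0 := by
      intro t _; rw [if_neg (by omega)]
    rw [Finset.sum_congr rfl this]; simp
  | succ p ih =>
    intro hp
    have ih' := ih (by omega)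
    have hs := h.SC_step p
    have hdiff : ∑ t ∈ range M, (if t < p + 1 ∧ p + 1 ≤ t + M then ff k M E t else 0)
        - ∑ t ∈ range M, (if t < p ∧ p ≤ t + M then ff k M E t else 0) = ff k M E p := by
      rw [← Finset.sum_sub_distrib]
      by_cases hpM : p < M
      · have : ∀ t ∈ range M, ((if t < p + 1 ∧ p + 1 ≤ t + M then ff k M E t else 0)
            - (if t < p ∧ p ≤ t + M then ff k M E t else 0))
            = if t = p then ff k M E t else 0 := by
          intro t ht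
          have := mem_range.1 ht
          by_cases h1 : t = p
          · rw [if_pos (by omega), if_neg (by omega), if_pos h1]; ring
          · by_cases h2 : t < p
            · rw [if_pos (by omega), if_pos (by omega), if_neg h1]; ring
            · rw [if_neg (by omega), if_neg (by omega), if_neg h1]; ring
        rw [Finset.sum_congr rfl this, Finset.sum_ite_eq', if_pos (mem_range.2 hpM)]
      · have : ∀ t ∈ range M, ((if t < p + 1 ∧ p + 1 ≤ t + M then ff k M E t else 0)
            - (if t < p ∧ p ≤ t + M then ff k M E t else 0))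
            = if t = p - M then - ff k M E t else 0 := by
          intro t ht
          have := mem_range.1 ht
          by_cases h1 : t = p - M
          · rw [if_neg (by omega), if_pos (by omega), if_pos h1]; ring
          · by_cases h2 : p - M < t
            · rw [if_pos (by omega), if_pos (by omega), if_neg h1]; ring
            · rw [if_neg (by omega), if_neg (by omega), if_neg h1]; ring
        rw [Finset.sum_congr rfl this, Finset.sum_ite_eq', if_pos (mem_range.2 (by omega))]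
        rw [← h.ff_anti]
        congr 1
        omega
    push_cast at hs ⊢
    have hs' : ff k M E p = SCi (2 * M) (2 * k + 1) Y (p + 1) - SCi (2 * M) (2 * k + 1) Y p := by
      rw [hs]; unfold ff; push_cast; ring
    linarith

lemma Good.SC_zero (h : Good k M Y E) :
    SCi (2 * M) (2 * k + 1) Y 0 = ∑ t ∈ range M, Qf M E t := by
  have h1 := h.SC_formula M (by omega)
  have h2 : ∑ t ∈ range M, (if t < M ∧ M ≤ t + M then ff k M E t else 0)
      = ∑ t ∈ range M, ff k M E t := by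
    apply Finset.sum_congr rfl
    intro t ht
    rw [if_pos ⟨mem_range.1 ht, by omega⟩]
  rw [h2] at h1
  have h3 : SCi (2 * M) (2 * k + 1) Y 0 + SCi (2 * M) (2 * k + 1) Y M
      = ((2 * k + 1 : ℕ) : ℤ) * M := by
    unfold SCi
    rw [← Finset.sum_add_distrib]
    have : ∀ i ∈ range (2 * k + 1), dl (2 * M) (Y i - 0) + dl (2 * M) (Y i - M) = M := by
      intro i _
      rw [sub_zero]
      exact dl_antipode M (by have := h.hM; omega) _
    rw [Finset.sum_congr rfl this]; simp
  have h4 : ∑ t ∈ range M, ff k M E t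
      = ((2 * k + 1 : ℕ) : ℤ) * M - 2 * ∑ t ∈ range M, Qf M E t := by
    unfold ff
    rw [Finset.sum_sub_distrib, ← Finset.mul_sum]
    simp; ring
  linarith

/-- the normalised situation: `0` is an optimal location -/
structure Norm (k M : ℕ) (E : ℤ → ℤ) : Prop where
  e0 : E 0 = 0
  q0 : E M ≤ k
  q1 : E (2 * M - 1) - E (M - 1) ≤ k

lemma Good.SC_agent (h : Good k M Y E) (hN : Norm k M E) (i : ℕ) (hi : i < 2 * k + 1) :
    SCi (2 * M) (2 * k + 1) Y (Y ((i : ℤ) + 1)) = SCi (2 * M) (2 * k + 1) Y 0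
      + ∑ t ∈ range M, (if E t < (i : ℤ) + 1 ∧ (i : ℤ) + 1 ≤ E (t + M) then ff k M E t else 0) := by
  have h1 : 1 ≤ Y ((i : ℤ) + 1) := by
    have : ¬ (Y ((i : ℤ) + 1) ≤ 0) := by rw [h.gal, hN.e0]; omega
    omega
  have h2 : Y ((i : ℤ) + 1) ≤ 2 * M := by
    rw [h.gal]
    have := h.Eper 0
    rw [zero_add, hN.e0] at this
    rw [this]; push_cast; omega
  obtain ⟨p, hp⟩ : ∃ p : ℕ, (p : ℤ) = Y ((i : ℤ) + 1) := ⟨(Y ((i : ℤ) + 1)).toNat, by omega⟩
  rw [← hp, h.SC_formula p (by omega)]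
  congr 1
  apply Finset.sum_congr rfl
  intro t ht
  have e1 : (t < p) ↔ (E t < (i : ℤ) + 1) := by
    have : (p : ℤ) ≤ t ↔ (i : ℤ) + 1 ≤ E t := by rw [hp, h.gal]
    constructor <;> intro h3 <;> by_contra h4 <;> push Not at h4
    · have := this.2 h4; omega
    · have := this.1 (by omega); omega
  have e2 : (p ≤ t + M) ↔ ((i : ℤ) + 1 ≤ E (t + M)) := by
    rw [← h.gal, ← hp]; constructor <;> intro h3 <;> omega
  by_cases h3 : t < p ∧ p ≤ t + M
  · rw [if_pos h3, if_pos ⟨e1.1 h3.1, e2.1 h3.2⟩]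
  · rw [if_neg h3, if_neg (fun h4 => h3 ⟨e1.2 h4.1, e2.2 h4.2⟩)]

/-- weighted sum of the costs of the agents' positions, for telescoping weights -/
lemma Good.weighted (h : Good k M Y E) (hN : Norm k M E) (F : ℤ → ℤ) :
    ∑ i ∈ range (2 * k + 1), (F ((i : ℤ) + 1 + 1) - F ((i : ℤ) + 1))
        * SCi (2 * M) (2 * k + 1) Y (Y ((i : ℤ) + 1))
      = (F (((2 * k + 1 : ℕ) : ℤ) + 1) - F 1) * SCi (2 * M) (2 * k + 1) Y 0
        + ∑ t ∈ range M, ff k M E t * (F (E (t + M) + 1) - F (E t + 1)) := by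
  have h1 : ∀ i ∈ range (2 * k + 1), (F ((i : ℤ) + 1 + 1) - F ((i : ℤ) + 1))
        * SCi (2 * M) (2 * k + 1) Y (Y ((i : ℤ) + 1))
      = (F ((i : ℤ) + 1 + 1) - F ((i : ℤ) + 1)) * SCi (2 * M) (2 * k + 1) Y 0
        + ∑ t ∈ range M, ff k M E t * (if E t < (i : ℤ) + 1 ∧ (i : ℤ) + 1 ≤ E (t + M) then
          (F ((i : ℤ) + 1 + 1) - F ((i : ℤ) + 1)) else 0) := by
    intro i hi
    rw [h.SC_agent hN i (mem_range.1 hi), mul_add, Finset.mul_sum]
    congr 1
    apply Finset.sum_congr rfl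
    intro t _
    split_ifs <;> ring
  rw [Finset.sum_congr rfl h1, Finset.sum_add_distrib, ← Finset.sum_mul]
  have h2 : ∑ i ∈ range (2 * k + 1), (F ((i : ℤ) + 1 + 1) - F ((i : ℤ) + 1))
      = F (((2 * k + 1 : ℕ) : ℤ) + 1) - F 1 := by
    have := tele F (2 * k + 1) 0 ((2 * k + 1 : ℕ) : ℤ) le_rfl (by positivity) le_rfl
    rw [zero_add] at this
    rw [← this]
    apply Finset.sum_congr rfl
    intro i hi
    have := mem_range.1 hi
    rw [if_pos (by constructor <;> push_cast <;> omega)]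
  rw [h2, Finset.sum_comm]
  congr 1
  apply Finset.sum_congr rfl
  intro t ht
  have ht' := mem_range.1 ht
  rw [← Finset.mul_sum]
  congr 1
  apply tele
  · have := h.Emono (show (0 : ℤ) ≤ t by positivity); rw [hN.e0] at this; exact this
  · exact h.Emono (by omega)
  · have := h.Emono (show (t : ℤ) + M ≤ 0 + 2 * M by omega)
    rw [h.Eper, hN.e0] at this
    simpa using this

/-- the arc swept by the medians -/
lemma Good.arc (h : Good k M Y E) (hN : Norm k M E) (t : ℕ) (ht : t < M) :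
    Y (E (t + M) + 1 + k) - Y (E t + 1 + k)
      = ∑ z ∈ range M, ((if E z + k + 1 ≤ E (t + M) then (1 : ℤ) else 0)
        + (if E t + k + 1 ≤ E (z + M) then (1 : ℤ) else 0)) := by
  have hM := h.hM
  rw [Finset.sum_add_distrib]
  -- first count
  have c1 : ∑ z ∈ range M, (if E z + k + 1 ≤ E (t + M) then (1 : ℤ) else 0)
      = Y (E (t + M) - k) := by
    have hle : Y (E (t + M) - k) ≤ M := by
      rw [h.gal]
      have a1 := h.Emono (show (t : ℤ) + M ≤ 2 * M - 1 by omega)
      have a2 := h.Emono (show ((M : ℤ) - 1) ≤ M by omega)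
      have := hN.q1
      omega
    have hge : 0 ≤ Y (E (t + M) - k) := by
      by_contra hcon
      push Not at hcon
      have h1 : Y (E (t + M) - k) ≤ -1 := by omega
      rw [h.gal] at h1
      have h2 := h.Eper (-1)
      have a1 := h.Emono (show ((M : ℤ) - 1) ≤ t + M by omega)
      have := hN.q1
      rw [show (-1 : ℤ) + 2 * M = 2 * M - 1 by ring] at h2
      push_cast at h2
      omega
    rw [← count_lt M (Y (E (t + M) - k)) hge hle]
    apply Finset.sum_congr rfl
    intro z _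
    have : (E z + k + 1 ≤ E (t + M)) ↔ ((z : ℤ) < Y (E (t + M) - k)) := by
      have h3 := h.gal (E (t + M) - k) z
      constructor
      · intro h4
        by_contra h5
        have := h3.1 (by omega)
        omega
      · intro h4
        by_contra h5
        have := h3.2 (by omega)
        omega
    by_cases h3 : E z + k + 1 ≤ E (t + M)
    · rw [if_pos h3, if_pos (this.1 h3)]
    · rw [if_neg h3, if_neg (fun h4 => h3 (this.2 h4))]
  have c2 : ∑ z ∈ range M, (if E t + k + 1 ≤ E (z + M) then (1 : ℤ) else 0)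
      = 2 * M - Y (E t + k + 1) := by
    have hge : 0 ≤ Y (E t + k + 1) - M := by
      by_contra hcon
      have h1 : Y (E t + k + 1) ≤ M := by omega
      rw [h.gal] at h1
      have := h.Emono (show (0 : ℤ) ≤ t by positivity)
      rw [hN.e0] at this
      have := hN.q0
      omega
    have hle : Y (E t + k + 1) - M ≤ M := by
      have : Y (E t + k + 1) ≤ 0 + 2 * M := by
        rw [h.gal, h.Eper, hN.e0]
        have a1 := h.Emono (show (t : ℤ) ≤ M by omega)
        have := hN.q0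
        push_cast; omega
      omega
    have := count_ge M (Y (E t + k + 1) - M) hge hle
    rw [show (2 * (M : ℤ) - Y (E t + k + 1)) = M - (Y (E t + k + 1) - M) by ring, ← this]
    apply Finset.sum_congr rfl
    intro z _
    have : (E t + k + 1 ≤ E (z + M)) ↔ (Y (E t + k + 1) - M ≤ (z : ℤ)) := by
      rw [← h.gal]
      constructor <;> intro h4 <;> omega
    by_cases h3 : E t + k + 1 ≤ E (z + M)
    · rw [if_pos h3, if_pos (this.1 h3)]
    · rw [if_neg h3, if_neg (fun h4 => h3 (this.2 h4))]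
  rw [c1, c2]
  have h3 := h.per (E (t + M) - k)
  rw [show E (t + M) - k + ((2 * k + 1 : ℕ) : ℤ) = E (t + M) + 1 + k by push_cast; ring] at h3
  rw [h3, show E (t : ℤ) + 1 + k = E t + k + 1 by ring]; ring

/-- the Motzkin–Straus input -/
lemma Good.ms (h : Good k M Y E) :
    ((k : ℤ) + 1) * (∑ z ∈ range M, ∑ t ∈ range M,
      (if E z + k + 1 ≤ E (t + M) then (2 * ((k : ℤ) + 1) - Qf M E z - Qf M E t) else 0))
      ≤ M * ∑ t ∈ range M, Qf M E t ^ 2 := by
  have hM := h.hM
  set a : ℕ → ℝ := fun s => if s < M then ((E M - E s : ℤ) : ℝ) / ((k : ℝ) + 1) else 0 with ha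
  set b : ℕ → ℝ := fun s => ((E (s + M) - E M : ℤ) : ℝ) / ((k : ℝ) + 1) with hb
  have hk : (0 : ℝ) < (k : ℝ) + 1 := by positivity
  have ha0 : ∀ s, 0 ≤ a s := by
    intro s
    simp only [ha]
    split_ifs with hs
    · apply div_nonneg _ hk.le
      have := h.Emono (show (s : ℤ) ≤ M by omega)
      exact_mod_cast (show (0 : ℤ) ≤ E M - E s by omega)
    · exact le_rfl
  have hb0 : ∀ s, 0 ≤ b s := by
    intro s
    simp only [hb]
    apply div_nonneg _ hk.le
    have := h.Emono (show (M : ℤ) ≤ s + M by omega)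
    exact_mod_cast (show (0 : ℤ) ≤ E (s + M) - E M by omega)
  have hms := ms_range a b ha0 hb0 M
  have hab : ∀ s, s < M → ∀ t, a s + b t = ((E (t + M) - E s : ℤ) : ℝ) / ((k : ℝ) + 1) := by
    intro s hs t
    simp only [ha, hb, if_pos hs]
    rw [← add_div]
    congr 1
    push_cast; ring
  have hq : ∀ s, s < M → a s + b s = ((Qf M E s : ℤ) : ℝ) / ((k : ℝ) + 1) := by
    intro s hs
    rw [hab s hs s]; rfl
  have hone : ∀ s, s < M → ∀ t, (1 ≤ a s + b t ↔ E s + k + 1 ≤ E (t + M)) := by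
    intro s hs t
    rw [hab s hs t, le_div_iff₀ hk, one_mul]
    constructor
    · intro h1
      have h2 : ((k : ℤ) + 1) ≤ E (t + M) - E s := by exact_mod_cast h1
      omega
    · intro h1
      have h2 : ((k : ℤ) + 1) ≤ E (t + M) - E s := by omega
      exact_mod_cast h2
  -- compare the sums
  have hcmp : ∑ z ∈ range M, ∑ t ∈ range M,
      (if E z + k + 1 ≤ E (t + M) then (2 * ((k : ℝ) + 1) - (Qf M E z : ℝ) - (Qf M E t : ℝ)) else 0)
      ≤ ((k : ℝ) + 1) * ∑ s ∈ range M, ∑ t ∈ range M,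
      (if s < t ∧ 1 ≤ a s + b t then (2 - (a s + b s) - (a t + b t)) else 0) := by
    rw [Finset.mul_sum]
    apply Finset.sum_le_sum
    intro z hz
    rw [Finset.mul_sum]
    apply Finset.sum_le_sum
    intro t ht
    have hz' := mem_range.1 hz
    have ht' := mem_range.1 ht
    by_cases h1 : E z + k + 1 ≤ E (t + M)
    · rw [if_pos h1]
      by_cases h2 : z < t
      · rw [if_pos ⟨h2, (hone z hz' t).2 h1⟩, hq z hz', hq t ht']
        have : ((k : ℝ) + 1) * (2 - (Qf M E z : ℝ) / ((k : ℝ) + 1) - (Qf M E t : ℝ) / ((k : ℝ) + 1))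
            = 2 * ((k : ℝ) + 1) - (Qf M E z : ℝ) - (Qf M E t : ℝ) := by
          field_simp
        rw [this]
      · rw [if_neg (fun h3 => h2 h3.1), mul_zero]
        have a1 := h.Emono (show (t : ℤ) ≤ z by omega)
        have a2 := h.Emono (show (t : ℤ) + M ≤ z + M by omega)
        have : (2 * ((k : ℤ) + 1) - Qf M E z - Qf M E t) ≤ 0 := by
          unfold Qf; omega
        exact_mod_cast this
    · rw [if_neg h1, if_neg (fun h3 => h1 ((hone z hz' t).1 h3.2)), mul_zero]
  have hsq : ∑ s ∈ range M, (a s + b s) ^ 2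
      = (∑ s ∈ range M, (Qf M E s : ℝ) ^ 2) / ((k : ℝ) + 1) ^ 2 := by
    rw [Finset.sum_div]
    apply Finset.sum_congr rfl
    intro s hs
    rw [hq s (mem_range.1 hs), div_pow]
  rw [hsq] at hms
  have hfin : ((k : ℝ) + 1) * (∑ z ∈ range M, ∑ t ∈ range M,
      (if E z + k + 1 ≤ E (t + M) then (2 * ((k : ℝ) + 1) - (Qf M E z : ℝ) - (Qf M E t : ℝ)) else 0))
      ≤ M * ∑ t ∈ range M, (Qf M E t : ℝ) ^ 2 := by
    have h1 := mul_le_mul_of_nonneg_left hms (mul_nonneg hk.le hk.le)
    have h2 := mul_le_mul_of_nonneg_left hcmp hk.le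
    have h3 : ((k : ℝ) + 1) * ((k : ℝ) + 1) * ((M : ℝ) * ((∑ s ∈ range M, (Qf M E s : ℝ) ^ 2)
        / ((k : ℝ) + 1) ^ 2)) = M * ∑ t ∈ range M, (Qf M E t : ℝ) ^ 2 := by
      field_simp
    rw [h3] at h1
    refine h2.trans (le_trans (le_of_eq (by ring)) h1)
  have hcast : ((((k : ℤ) + 1) * (∑ z ∈ range M, ∑ t ∈ range M,
      (if E z + k + 1 ≤ E (t + M) then (2 * ((k : ℤ) + 1) - Qf M E z - Qf M E t) else 0)) : ℤ) : ℝ)
      ≤ ((M * ∑ t ∈ range M, Qf M E t ^ 2 : ℤ) : ℝ) := by
    push_cast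
    exact hfin
  exact_mod_cast hcast

/-- The discrete inequality at a normalised optimum. -/
theorem Good.main (h : Good k M Y E) (hN : Norm k M E) :
    ((2 * (k : ℤ) + 1) + 1) * (∑ i ∈ range (2 * k + 1),
        (Y ((i : ℤ) + 1 + 1 + k) - Y ((i : ℤ) + 1 + k)) *
          SCi (2 * M) (2 * k + 1) Y (Y ((i : ℤ) + 1)))
      + 2 * M * (∑ i ∈ range (2 * k + 1), SCi (2 * M) (2 * k + 1) Y (Y ((i : ℤ) + 1)))
      ≤ (3 * (2 * (k : ℤ) + 1) + 1) * (2 * M) * SCi (2 * M) (2 * k + 1) Y 0 := by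
  set SC0 := SCi (2 * M) (2 * k + 1) Y 0 with hSC0
  have w1 := h.weighted hN (fun j => Y (j + k))
  have w2 := h.weighted hN (fun j => j)
  beta_reduce at w1 w2
  have e1 : Y (((2 * k + 1 : ℕ) : ℤ) + 1 + k) - Y (1 + k) = 2 * M := by
    have := h.per (1 + k)
    rw [show (1 : ℤ) + k + ((2 * k + 1 : ℕ) : ℤ) = ((2 * k + 1 : ℕ) : ℤ) + 1 + k by ring] at this
    rw [this]; ring
  rw [e1] at w1
  -- the PCD part
  have e2 : ∑ t ∈ range M, ff k M E t * (Y (E (t + M) + 1 + k) - Y (E t + 1 + k))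
      = ∑ z ∈ range M, ∑ t ∈ range M, (if E z + k + 1 ≤ E (t + M) then
          (ff k M E z + ff k M E t) else 0) := by
    have h1 : ∀ t ∈ range M, ff k M E t * (Y (E (t + M) + 1 + k) - Y (E t + 1 + k))
        = ∑ z ∈ range M, (if E z + k + 1 ≤ E (t + M) then ff k M E t else 0)
          + ∑ z ∈ range M, (if E t + k + 1 ≤ E (z + M) then ff k M E t else 0) := by
      intro t ht
      rw [h.arc hN t (mem_range.1 ht), Finset.sum_add_distrib, mul_add, Finset.mul_sum,
        Finset.mul_sum]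
      congr 1
      · apply Finset.sum_congr rfl; intro z _; split_ifs <;> ring
      · apply Finset.sum_congr rfl; intro z _; split_ifs <;> ring
    rw [Finset.sum_congr rfl h1, Finset.sum_add_distrib, Finset.sum_comm]
    rw [← Finset.sum_add_distrib]
    apply Finset.sum_congr rfl; intro z _
    rw [← Finset.sum_add_distrib]
    apply Finset.sum_congr rfl; intro t _
    split_ifs <;> ring
  have e3 : ∑ z ∈ range M, ∑ t ∈ range M, (if E z + k + 1 ≤ E (t + M) then
          (ff k M E z + ff k M E t) else 0)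
      ≤ 2 * ∑ z ∈ range M, ∑ t ∈ range M,
      (if E z + k + 1 ≤ E (t + M) then (2 * ((k : ℤ) + 1) - Qf M E z - Qf M E t) else 0) := by
    rw [Finset.mul_sum]
    apply Finset.sum_le_sum; intro z _
    rw [Finset.mul_sum]
    apply Finset.sum_le_sum; intro t _
    split_ifs
    · unfold ff; push_cast; omega
    · simp
  have e4 := h.ms
  have e5 : ∑ t ∈ range M, ff k M E t * (E (t + M) + 1 - (E t + 1))
      = ((2 * k + 1 : ℕ) : ℤ) * SC0 - 2 * ∑ t ∈ range M, Qf M E t ^ 2 := by
    rw [hSC0, h.SC_zero, Finset.mul_sum, Finset.mul_sum, ← Finset.sum_sub_distrib]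
    apply Finset.sum_congr rfl; intro t _
    unfold ff Qf; ring
  rw [e2] at w1
  rw [e5] at w2
  have w2' : ∑ i ∈ range (2 * k + 1), SCi (2 * M) (2 * k + 1) Y (Y ((i : ℤ) + 1))
      = ((2 * k + 1 : ℕ) : ℤ) * SC0 + (((2 * k + 1 : ℕ) : ℤ) * SC0
        - 2 * ∑ t ∈ range M, Qf M E t ^ 2) := by
    have : ∀ i ∈ range (2 * k + 1), ((i : ℤ) + 1 + 1 - ((i : ℤ) + 1))
        * SCi (2 * M) (2 * k + 1) Y (Y ((i : ℤ) + 1))
        = SCi (2 * M) (2 * k + 1) Y (Y ((i : ℤ) + 1)) := by
      intro i _; ring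
    rw [Finset.sum_congr rfl this] at w2
    rw [w2]; ring
  rw [w1, w2']
  set G := ∑ z ∈ range M, ∑ t ∈ range M, (if E z + k + 1 ≤ E (t + M) then
          (ff k M E z + ff k M E t) else 0) with hG
  set H := ∑ z ∈ range M, ∑ t ∈ range M,
      (if E z + k + 1 ≤ E (t + M) then (2 * ((k : ℤ) + 1) - Qf M E z - Qf M E t) else 0) with hH
  set S2 := ∑ t ∈ range M, Qf M E t ^ 2 with hS2
  have hkk : (0 : ℤ) ≤ (k : ℤ) + 1 := by positivity
  have e6 : ((k : ℤ) + 1) * G ≤ 2 * (M * S2) := by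
    calc ((k : ℤ) + 1) * G ≤ ((k : ℤ) + 1) * (2 * H) := mul_le_mul_of_nonneg_left e3 hkk
      _ = 2 * (((k : ℤ) + 1) * H) := by ring
      _ ≤ 2 * (M * S2) := by linarith
  push_cast
  nlinarith [e6]

end main

end Pool.Agent.R565.RDPCD
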