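import Mathlib
import Pool.Agent.R565.RDPCDb

/-!
# Part C: from the discrete circle to the real circle
-/

namespace Pool.Agent.R565.RDPCD

open Finset Filter Topology

lemma per_mul (n : ℕ) (L : ℤ) (Y : ℤ → ℤ) (hper : ∀ i, Y (i + (n : ℤ)) = Y i + L) (m : ℕ) (i : ℤ) :
    Y (i + m * n) = Y i + m * L := by
  induction m with
  | zero => simp
  | succ m ih =>
    rw [show i + ((m + 1 : ℕ) : ℤ) * n = (i + m * n) + n by push_cast; ring, hper, ih]
    push_cast; ring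

lemma exE (k M : ℕ) (hM : 1 ≤ M) (Y : ℤ → ℤ) (mono : Monotone Y)
    (hper : ∀ i, Y (i + ((2 * k + 1 : ℕ) : ℤ)) = Y i + 2 * (M : ℤ)) :
    ∃ E : ℤ → ℤ, ∀ i t, Y i ≤ t ↔ i ≤ E t := by
  have key : ∀ t : ℤ, ∃ e : ℤ, ∀ i, Y i ≤ t ↔ i ≤ e := by
    intro t
    have hb : ∃ b : ℤ, ∀ z : ℤ, Y z ≤ t → z ≤ b := by
      refine ⟨((t - Y 0).toNat : ℤ) * ((2 * k + 1 : ℕ) : ℤ) + ((2 * k + 1 : ℕ) : ℤ), ?_⟩
      intro z hz
      by_contra hcon
      push Not at hcon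
      have h1 := per_mul (2 * k + 1) (2 * M) Y hper ((t - Y 0).toNat + 1) 0
      have h2 : Y (0 + (((t - Y 0).toNat + 1 : ℕ) : ℤ) * ((2 * k + 1 : ℕ) : ℤ)) ≤ Y z := by
        apply mono
        push_cast at hcon ⊢
        linarith
      rw [h1] at h2
      have h3 : (t - Y 0) ≤ ((t - Y 0).toNat : ℤ) := Int.self_le_toNat _
      have h4 : (0 : ℤ) ≤ ((t - Y 0).toNat : ℤ) := by positivity
      have h5 : (1 : ℤ) ≤ M := by exact_mod_cast hM
      push_cast at h2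
      nlinarith
    have hi : ∃ z : ℤ, Y z ≤ t := by
      refine ⟨-(((Y 0 - t).toNat : ℤ) * ((2 * k + 1 : ℕ) : ℤ)), ?_⟩
      have h1 := per_mul (2 * k + 1) (2 * M) Y hper ((Y 0 - t).toNat)
        (-(((Y 0 - t).toNat : ℤ) * ((2 * k + 1 : ℕ) : ℤ)))
      rw [neg_add_cancel] at h1
      have h3 : (Y 0 - t) ≤ ((Y 0 - t).toNat : ℤ) := Int.self_le_toNat _
      have h4 : (0 : ℤ) ≤ ((Y 0 - t).toNat : ℤ) := by positivity
      have h5 : (1 : ℤ) ≤ M := by exact_mod_cast hM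
      nlinarith
    obtain ⟨e, he1, he2⟩ := Int.exists_greatest_of_bdd hb hi
    exact ⟨e, fun i => ⟨fun h => he2 i h, fun h => (mono h).trans he1⟩⟩
  choose E hE using key
  exact ⟨E, fun i t => hE t i⟩

lemma SCi_nonneg (M n : ℕ) (Y : ℤ → ℤ) (p : ℤ) (hM : 1 ≤ M) : 0 ≤ SCi (2 * M) n Y p := by
  unfold SCi
  apply Finset.sum_nonneg
  intro i _
  unfold dl
  have h0 := Int.emod_nonneg (Y i - p) (show (2 * (M : ℤ)) ≠ 0 by omega)
  have h1 := Int.emod_lt_of_pos (Y i - p) (show 0 < 2 * (M : ℤ) by omega)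
  omega

/-- The discrete inequality for every location. -/
theorem disc (k M : ℕ) (hM : 1 ≤ M) (Y : ℤ → ℤ) (mono : Monotone Y)
    (hper : ∀ i, Y (i + ((2 * k + 1 : ℕ) : ℤ)) = Y i + 2 * (M : ℤ)) (x : ℤ) :
    ((2 * (k : ℤ) + 1) + 1) * (∑ i ∈ range (2 * k + 1),
        (Y ((i : ℤ) + 1 + k) - Y ((i : ℤ) + k)) * SCi (2 * M) (2 * k + 1) Y (Y (i : ℤ)))
      + 2 * M * (∑ i ∈ range (2 * k + 1), SCi (2 * M) (2 * k + 1) Y (Y (i : ℤ)))
      ≤ (3 * (2 * (k : ℤ) + 1) + 1) * (2 * M) * SCi (2 * M) (2 * k + 1) Y x := by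
  obtain ⟨E, hE⟩ := exE k M hM Y mono hper
  have hG : Good k M Y E := ⟨hM, hE, hper⟩
  -- minimiser
  obtain ⟨x0, hx0⟩ : ∃ x0, ∀ y, SCi (2 * M) (2 * k + 1) Y x0 ≤ SCi (2 * M) (2 * k + 1) Y y := by
    classical
    have hex : ∃ m : ℕ, ∃ y, SCi (2 * M) (2 * k + 1) Y y = m := by
      refine ⟨(SCi (2 * M) (2 * k + 1) Y 0).toNat, 0, ?_⟩
      rw [Int.toNat_of_nonneg (SCi_nonneg M _ Y 0 hM)]
    obtain ⟨x0, h0⟩ := Nat.find_spec hex
    refine ⟨x0, fun y => ?_⟩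
    have h1 := Nat.find_min' hex (m := (SCi (2 * M) (2 * k + 1) Y y).toNat) ⟨y, by
      rw [Int.toNat_of_nonneg (SCi_nonneg M _ Y y hM)]⟩
    have h2 := SCi_nonneg M (2 * k + 1) Y y hM
    rw [h0]; omega
  have hstep1 := hG.SC_step x0
  have hstep2 := hG.SC_step (x0 - 1)
  rw [sub_add_cancel] at hstep2
  have hm1 := hx0 (x0 + 1)
  have hm2 := hx0 (x0 - 1)
  have hanti := hG.Q_anti (x0 - 1)
  set s := E x0 with hs
  set Y' : ℤ → ℤ := fun i => Y (i + s) - x0 with hY'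
  set E' : ℤ → ℤ := fun t => E (t + x0) - s with hE'
  have hG' : Good k M Y' E' := by
    refine ⟨hM, ?_, ?_⟩
    · intro i t
      simp only [hY', hE']
      have := hE (i + s) (t + x0)
      constructor
      · intro h; have := this.1 (by omega); omega
      · intro h; have := this.2 (by omega); omega
    · intro i
      simp only [hY']
      have := hper (i + s)
      rw [show i + ((2 * k + 1 : ℕ) : ℤ) + s = i + s + ((2 * k + 1 : ℕ) : ℤ) by ring, this]; ring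
  have hN' : Norm k M E' := by
    refine ⟨?_, ?_, ?_⟩
    · simp [hE', hs]
    · simp only [hE']
      unfold Qf at hstep1
      rw [show (M : ℤ) + x0 = x0 + M by ring]
      push_cast at hstep1
      omega
    · simp only [hE']
      unfold Qf at hstep2 hanti
      have e1 : 2 * (M : ℤ) - 1 + x0 = x0 - 1 + M + M := by ring
      have e2 : (M : ℤ) - 1 + x0 = x0 - 1 + M := by ring
      rw [e1, e2]
      push_cast at hstep2 hanti
      omega
  have hmain := hG'.main hN'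
  have hSC : ∀ p, SCi (2 * M) (2 * k + 1) Y' p = SCi (2 * M) (2 * k + 1) Y (p + x0) := by
    intro p
    rw [hG.SC_shift (p + x0) s]
    unfold SCi
    apply Finset.sum_congr rfl
    intro i _
    simp only [hY']
    congr 1; ring
  simp only [hSC] at hmain
  simp only [hY'] at hmain
  rw [zero_add] at hmain
  have hSCper : ∀ p, SCi (2 * M) (2 * k + 1) Y (p + 2 * M) = SCi (2 * M) (2 * k + 1) Y p := by
    intro p
    unfold SCi
    apply Finset.sum_congr rfl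
    intro i _
    rw [← dl_add (2 * M) (Y i - (p + 2 * M))]
    congr 1; ring
  have hsum1 : ∑ i ∈ range (2 * k + 1), (Y ((i : ℤ) + 1 + 1 + k + s) - x0
      - (Y ((i : ℤ) + 1 + k + s) - x0)) * SCi (2 * M) (2 * k + 1) Y (Y ((i : ℤ) + 1 + s) - x0 + x0)
      = ∑ i ∈ range (2 * k + 1),
        (Y ((i : ℤ) + 1 + k) - Y ((i : ℤ) + k)) * SCi (2 * M) (2 * k + 1) Y (Y (i : ℤ)) := by
    rw [← shift_int (2 * k + 1) (fun i => (Y (i + 1 + k) - Y (i + k))
      * SCi (2 * M) (2 * k + 1) Y (Y i)) (fun i => by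
        have h1 := hper (i + 1 + k)
        have h2 := hper (i + k)
        have h3 := hper i
        rw [show i + ((2 * k + 1 : ℕ) : ℤ) + 1 + k = i + 1 + k + ((2 * k + 1 : ℕ) : ℤ) by ring,
          show i + ((2 * k + 1 : ℕ) : ℤ) + k = i + k + ((2 * k + 1 : ℕ) : ℤ) by ring,
          h1, h2, h3, hSCper]
        ring) (1 + s)]
    apply Finset.sum_congr rfl
    intro i _
    rw [sub_add_cancel, show (i : ℤ) + 1 + 1 + k + s = (i : ℤ) + (1 + s) + 1 + k by ring,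
      show (i : ℤ) + 1 + k + s = (i : ℤ) + (1 + s) + k by ring,
      show (i : ℤ) + 1 + s = (i : ℤ) + (1 + s) by ring]
    ring
  have hsum2 : ∑ i ∈ range (2 * k + 1), SCi (2 * M) (2 * k + 1) Y (Y ((i : ℤ) + 1 + s) - x0 + x0)
      = ∑ i ∈ range (2 * k + 1), SCi (2 * M) (2 * k + 1) Y (Y (i : ℤ)) := by
    rw [← shift_int (2 * k + 1) (fun i => SCi (2 * M) (2 * k + 1) Y (Y i)) (fun i => by
        rw [hper i, hSCper]) (1 + s)]
    apply Finset.sum_congr rfl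
    intro i _
    rw [sub_add_cancel, show (i : ℤ) + 1 + s = (i : ℤ) + (1 + s) by ring]
  rw [hsum1, hsum2] at hmain
  refine hmain.trans ?_
  apply mul_le_mul_of_nonneg_left (hx0 x)
  positivity

/-- the norm on the circle, on real representatives -/
noncomputable def rho (s : ℝ) : ℝ := ‖(s : UnitAddCircle)‖

lemma rho_cont : Continuous rho :=
  continuous_norm.comp (AddCircle.continuous_mk' (1 : ℝ))

lemma rho_int (M : ℕ) (hM : 1 ≤ M) (u : ℤ) :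
    (2 * (M : ℝ)) * rho ((u : ℝ) / (2 * M)) = (dl (2 * M) u : ℝ) := by
  have hMr : (0 : ℝ) < 2 * (M : ℝ) := by
    have : (1 : ℝ) ≤ M := by exact_mod_cast hM
    linarith
  unfold rho dl
  rw [UnitAddCircle.norm_eq, abs_sub_round_eq_min]
  have h1 : Int.fract ((u : ℝ) / (2 * M)) = ((u % (2 * M) : ℤ) : ℝ) / (2 * M) := by
    have := Int.fract_div_intCast_eq_div_intCast_mod (k := ℝ) (m := u) (n := 2 * M)
    push_cast at this ⊢
    exact this
  rw [h1, mul_min_of_nonneg _ _ hMr.le]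
  push_cast
  congr 1
  · field_simp
  · field_simp

lemma SCi_eq_rho (M n : ℕ) (hM : 1 ≤ M) (Y : ℤ → ℤ) (p : ℤ) :
    (SCi (2 * M) n Y p : ℝ) = (2 * (M : ℝ)) * ∑ i ∈ range n,
      rho ((Y i : ℝ) / (2 * M) - (p : ℝ) / (2 * M)) := by
  unfold SCi
  push_cast
  rw [Finset.mul_sum]
  apply Finset.sum_congr rfl
  intro i _
  rw [← rho_int M hM]
  push_cast
  rw [sub_div]

lemma tend (x : ℝ) :
    Tendsto (fun m : ℕ => ((⌊2 * ((m + 1 : ℕ) : ℝ) * x⌋ : ℤ) : ℝ) / (2 * ((m + 1 : ℕ) : ℝ)))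
      atTop (𝓝 x) := by
  have h1 : Tendsto (fun m : ℕ => x - 1 / ((m : ℝ) + 1)) atTop (𝓝 (x - 0)) :=
    tendsto_const_nhds.sub tendsto_one_div_add_atTop_nhds_zero_nat
  rw [sub_zero] at h1
  refine tendsto_of_tendsto_of_tendsto_of_le_of_le h1 tendsto_const_nhds ?_ ?_
  · intro m
    have hpos : (0 : ℝ) < 2 * ((m + 1 : ℕ) : ℝ) := by positivity
    have hpos' : (0 : ℝ) < (m : ℝ) + 1 := by positivity
    have hfl := Int.sub_one_lt_floor (2 * ((m + 1 : ℕ) : ℝ) * x)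
    show x - 1 / ((m : ℝ) + 1) ≤ _
    rw [le_div_iff₀ hpos]
    have : (x - 1 / ((m : ℝ) + 1)) * (2 * ((m + 1 : ℕ) : ℝ)) = 2 * ((m + 1 : ℕ) : ℝ) * x - 2 := by
      push_cast
      field_simp
    rw [this]; linarith
  · intro m
    have hpos : (0 : ℝ) < 2 * ((m + 1 : ℕ) : ℝ) := by positivity
    show ((⌊2 * ((m + 1 : ℕ) : ℝ) * x⌋ : ℤ) : ℝ) / (2 * ((m + 1 : ℕ) : ℝ)) ≤ x
    rw [div_le_iff₀ hpos]
    have := Int.floor_le (2 * ((m + 1 : ℕ) : ℝ) * x)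
    linarith

/-- The inequality on the real circle, for lifted positions. -/
theorem realIneq (k : ℕ) (X : ℤ → ℝ) (mono : Monotone X)
    (hper : ∀ i, X (i + ((2 * k + 1 : ℕ) : ℤ)) = X i + 1) (x : ℝ) :
    ((2 * (k : ℝ) + 1) + 1) * (∑ j ∈ range (2 * k + 1),
        (X ((j : ℤ) + 1 + k) - X ((j : ℤ) + k)) *
          ∑ i ∈ range (2 * k + 1), rho (X (i : ℤ) - X (j : ℤ)))
      + (∑ j ∈ range (2 * k + 1), ∑ i ∈ range (2 * k + 1), rho (X (i : ℤ) - X (j : ℤ)))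
      ≤ (3 * (2 * (k : ℝ) + 1) + 1) * ∑ i ∈ range (2 * k + 1), rho (X (i : ℤ) - x) := by
  -- discretisations
  set Z : ℕ → ℝ → ℝ := fun m r =>
    ((⌊2 * ((m + 1 : ℕ) : ℝ) * r⌋ : ℤ) : ℝ) / (2 * ((m + 1 : ℕ) : ℝ)) with hZ
  have hT : ∀ r, Tendsto (fun m => Z m r) atTop (𝓝 r) := fun r => tend r
  have hTr : ∀ r r', Tendsto (fun m => rho (Z m r - Z m r')) atTop (𝓝 (rho (r - r'))) := by
    intro r r'
    exact (rho_cont.tendsto _).comp ((hT r).sub (hT r'))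
  have hL : Tendsto (fun m => ((2 * (k : ℝ) + 1) + 1) * (∑ j ∈ range (2 * k + 1),
        (Z m (X ((j : ℤ) + 1 + k)) - Z m (X ((j : ℤ) + k))) *
          ∑ i ∈ range (2 * k + 1), rho (Z m (X (i : ℤ)) - Z m (X (j : ℤ))))
      + (∑ j ∈ range (2 * k + 1), ∑ i ∈ range (2 * k + 1),
          rho (Z m (X (i : ℤ)) - Z m (X (j : ℤ))))) atTop
      (𝓝 (((2 * (k : ℝ) + 1) + 1) * (∑ j ∈ range (2 * k + 1),
        (X ((j : ℤ) + 1 + k) - X ((j : ℤ) + k)) *
          ∑ i ∈ range (2 * k + 1), rho (X (i : ℤ) - X (j : ℤ)))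
      + (∑ j ∈ range (2 * k + 1), ∑ i ∈ range (2 * k + 1), rho (X (i : ℤ) - X (j : ℤ))))) := by
    apply Tendsto.add
    · apply Tendsto.const_mul
      apply tendsto_finsetSum
      intro j _
      apply Tendsto.mul ((hT _).sub (hT _))
      apply tendsto_finsetSum
      intro i _
      exact hTr _ _
    · apply tendsto_finsetSum
      intro j _
      apply tendsto_finsetSum
      intro i _
      exact hTr _ _
  have hR : Tendsto (fun m => (3 * (2 * (k : ℝ) + 1) + 1) * ∑ i ∈ range (2 * k + 1),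
      rho (Z m (X (i : ℤ)) - Z m x)) atTop
      (𝓝 ((3 * (2 * (k : ℝ) + 1) + 1) * ∑ i ∈ range (2 * k + 1), rho (X (i : ℤ) - x))) := by
    apply Tendsto.const_mul
    apply tendsto_finsetSum
    intro i _
    exact hTr _ _
  refine le_of_tendsto_of_tendsto' hL hR ?_
  intro m
  set M : ℕ := m + 1 with hM
  set Y : ℤ → ℤ := fun i => ⌊2 * (M : ℝ) * X i⌋ with hY
  have hM1 : 1 ≤ M := by omega
  have hMr : (0 : ℝ) < 2 * (M : ℝ) := by positivity
  have monoY : Monotone Y := by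
    intro i j hij
    apply Int.floor_le_floor
    exact mul_le_mul_of_nonneg_left (mono hij) hMr.le
  have hperY : ∀ i, Y (i + ((2 * k + 1 : ℕ) : ℤ)) = Y i + 2 * (M : ℤ) := by
    intro i
    simp only [hY]
    rw [hper, mul_add, mul_one]
    have : (2 * (M : ℝ)) = ((2 * (M : ℤ) : ℤ) : ℝ) := by push_cast; ring
    rw [this, Int.floor_add_intCast]
  have hd := disc k M hM1 Y monoY hperY ⌊2 * (M : ℝ) * x⌋
  have hd' : ((((2 * (k : ℤ) + 1) + 1) * (∑ i ∈ range (2 * k + 1),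
        (Y ((i : ℤ) + 1 + k) - Y ((i : ℤ) + k)) * SCi (2 * M) (2 * k + 1) Y (Y (i : ℤ)))
      + 2 * M * (∑ i ∈ range (2 * k + 1), SCi (2 * M) (2 * k + 1) Y (Y (i : ℤ))) : ℤ) : ℝ)
      ≤ (((3 * (2 * (k : ℤ) + 1) + 1) * (2 * M) * SCi (2 * M) (2 * k + 1) Y
        ⌊2 * (M : ℝ) * x⌋ : ℤ) : ℝ) := by exact_mod_cast hd
  push_cast at hd'
  have hYZ : ∀ i, (Y i : ℝ) = 2 * (M : ℝ) * Z m (X i) := by
    intro i
    simp only [hY, hZ, ← hM]
    field_simp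
  have hS : ∀ j : ℤ, (SCi (2 * M) (2 * k + 1) Y (Y j) : ℝ)
      = 2 * (M : ℝ) * ∑ i ∈ range (2 * k + 1), rho (Z m (X (i : ℤ)) - Z m (X j)) := by
    intro j
    rw [SCi_eq_rho M _ hM1]
  have hSx : (SCi (2 * M) (2 * k + 1) Y ⌊2 * (M : ℝ) * x⌋ : ℝ)
      = 2 * (M : ℝ) * ∑ i ∈ range (2 * k + 1), rho (Z m (X (i : ℤ)) - Z m x) := by
    rw [SCi_eq_rho M _ hM1]
  rw [hSx] at hd'
  simp only [hS] at hd'
  have e1 : ∀ j ∈ range (2 * k + 1), ((Y ((j : ℤ) + 1 + k) : ℝ) - (Y ((j : ℤ) + k) : ℝ))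
      * (2 * (M : ℝ) * ∑ i ∈ range (2 * k + 1), rho (Z m (X (i : ℤ)) - Z m (X (j : ℤ))))
      = (2 * (M : ℝ)) ^ 2 * ((Z m (X ((j : ℤ) + 1 + k)) - Z m (X ((j : ℤ) + k))) *
          ∑ i ∈ range (2 * k + 1), rho (Z m (X (i : ℤ)) - Z m (X (j : ℤ)))) := by
    intro j _
    rw [hYZ, hYZ]; ring
  rw [Finset.sum_congr rfl e1, ← Finset.mul_sum, ← Finset.mul_sum] at hd'
  have h2 : (0 : ℝ) < (2 * (M : ℝ)) ^ 2 := by positivity
  apply le_of_mul_le_mul_left _ h2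
  refine le_trans (le_of_eq ?_) (hd'.trans (le_of_eq ?_))
  · ring
  · ring

end Pool.Agent.R565.RDPCD
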