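import Mathlib

/-!
# Comparison of `∑ l |l|` for two real families of sum zero, via `∑ arctan (l / y)`
-/

set_option autoImplicit false

open Real Filter Topology

namespace Pool.Agent.R565.Sq

noncomputable def hf (l Y : ℝ) : ℝ := (Y ^ 2 + l ^ 2) / 2 * arctan (l / Y) + l * Y / 2

theorem hf_deriv (l Y : ℝ) (hY : 0 < Y) : HasDerivAt (hf l) (Y * arctan (l / Y)) Y := by
  have h1 : HasDerivAt (fun Y : ℝ => l / Y) (-l / Y ^ 2) Y := by
    have h := (hasDerivAt_inv hY.ne').const_mul l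
    have h' : (fun y : ℝ => l * y⁻¹) = fun Y : ℝ => l / Y := by
      ext y; rw [div_eq_mul_inv]
    rw [h'] at h
    refine h.congr_deriv ?_
    rw [neg_div, div_eq_mul_inv, mul_neg]
  have h2 : HasDerivAt (fun Y : ℝ => arctan (l / Y)) (1 / (1 + (l / Y) ^ 2) * (-l / Y ^ 2)) Y :=
    h1.arctan
  have h3 : HasDerivAt (fun Y : ℝ => (Y ^ 2 + l ^ 2) / 2) Y Y := by
    have h := ((hasDerivAt_pow 2 Y).add_const (l ^ 2)).div_const 2
    refine h.congr_deriv ?_
    norm_num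
  have h5 : HasDerivAt (fun Y : ℝ => l * Y / 2) (l / 2) Y := by
    have h := ((hasDerivAt_id Y).const_mul l).div_const 2
    refine h.congr_deriv ?_
    rw [mul_one]
  have h4 : HasDerivAt (hf l) (Y * arctan (l / Y) +
      (Y ^ 2 + l ^ 2) / 2 * (1 / (1 + (l / Y) ^ 2) * (-l / Y ^ 2)) + l / 2) Y :=
    (h3.mul h2).add h5
  refine h4.congr_deriv ?_
  have : (Y ^ 2 + l ^ 2) / 2 * (1 / (1 + (l / Y) ^ 2) * (-l / Y ^ 2)) = - (l / 2) := by
    have h6 : Y ^ 2 + l ^ 2 ≠ 0 := by positivity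
    field_simp
  rw [this]; ring

theorem hf_neg (l Y : ℝ) : hf (-l) Y = - hf l Y := by
  unfold hf
  rw [neg_div, arctan_neg]
  ring

theorem hf_zero_pos (l : ℝ) (hl : 0 < l) : Tendsto (hf l) (𝓝[>] 0) (𝓝 (π / 4 * (l * |l|))) := by
  have h1 : Tendsto (fun Y : ℝ => l / Y) (𝓝[>] 0) atTop := by
    simp only [div_eq_mul_inv]
    exact tendsto_inv_nhdsGT_zero.const_mul_atTop hl
  have h2 : Tendsto (fun Y : ℝ => arctan (l / Y)) (𝓝[>] 0) (𝓝 (π / 2)) :=
    (tendsto_arctan_atTop.mono_right nhdsWithin_le_nhds).comp h1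
  have h3 : Tendsto (fun Y : ℝ => (Y ^ 2 + l ^ 2) / 2) (𝓝[>] 0) (𝓝 ((0 ^ 2 + l ^ 2) / 2)) :=
    ((by fun_prop : Continuous fun Y : ℝ => (Y ^ 2 + l ^ 2) / 2).tendsto 0).mono_left
      nhdsWithin_le_nhds
  have h4 : Tendsto (fun Y : ℝ => l * Y / 2) (𝓝[>] 0) (𝓝 (l * 0 / 2)) :=
    ((by fun_prop : Continuous fun Y : ℝ => l * Y / 2).tendsto 0).mono_left
      nhdsWithin_le_nhds
  have h5 := (h3.mul h2).add h4
  have h6 : (0 ^ 2 + l ^ 2) / 2 * (π / 2) + l * 0 / 2 = π / 4 * (l * |l|) := by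
    rw [abs_of_pos hl]; ring
  rw [h6] at h5
  exact h5

theorem hf_zero (l : ℝ) : Tendsto (hf l) (𝓝[>] 0) (𝓝 (π / 4 * (l * |l|))) := by
  rcases lt_trichotomy l 0 with hl | hl | hl
  · have h := (hf_zero_pos (-l) (by linarith)).neg
    have h1 : (fun x => -hf (-l) x) = hf l := by
      ext x; rw [hf_neg]; ring
    rw [h1] at h
    convert h using 2
    rw [abs_neg]; ring
  · subst hl
    have h1 : hf 0 = fun _ => 0 := by
      ext x; simp [hf]
    rw [h1]
    simp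
  · exact hf_zero_pos l hl

theorem arctan_bounds (x : ℝ) (hx : 0 ≤ x) : x / (1 + x ^ 2) ≤ arctan x ∧ arctan x ≤ x := by
  have h0 : 0 ≤ arctan x := arctan_nonneg.2 hx
  constructor
  · have h1 : x / (1 + x ^ 2) = sin (arctan x) * cos (arctan x) := by
      rw [sin_arctan, cos_arctan]
      have : √(1 + x ^ 2) * √(1 + x ^ 2) = 1 + x ^ 2 := mul_self_sqrt (by positivity)
      rw [div_mul_div_comm, this, mul_one]
    rw [h1]
    have h2 : sin (arctan x) ≤ arctan x := sin_le h0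
    have h3 : cos (arctan x) ≤ 1 := cos_le_one _
    have h4 : 0 < cos (arctan x) := cos_arctan_pos x
    have h5 : 0 ≤ sin (arctan x) := by rw [sin_arctan]; positivity
    nlinarith
  · have := le_tan h0 (arctan_lt_pi_div_two x)
    rwa [tan_arctan] at this

theorem hf_top_pos (l : ℝ) (hl : 0 ≤ l) : Tendsto (fun Y => hf l Y - l * Y) atTop (𝓝 0) := by
  have h1 : Tendsto (fun Y : ℝ => l ^ 3 / 2 / Y) atTop (𝓝 0) := tendsto_const_nhds.div_atTop tendsto_id
  refine tendsto_of_tendsto_of_tendsto_of_le_of_le' tendsto_const_nhds h1 ?_ ?_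
  · filter_upwards [eventually_gt_atTop 0] with Y hY
    have h2 := (arctan_bounds (l / Y) (by positivity)).1
    have h3 : l / Y / (1 + (l / Y) ^ 2) = l * Y / (Y ^ 2 + l ^ 2) := by
      field_simp
    rw [h3] at h2
    have h4 : (Y ^ 2 + l ^ 2) / 2 * (l * Y / (Y ^ 2 + l ^ 2)) = l * Y / 2 := by
      field_simp
    have h5 : (Y ^ 2 + l ^ 2) / 2 * (l * Y / (Y ^ 2 + l ^ 2)) ≤ (Y ^ 2 + l ^ 2) / 2 * arctan (l / Y) :=
      mul_le_mul_of_nonneg_left h2 (by positivity)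
    unfold hf
    linarith
  · filter_upwards [eventually_gt_atTop 0] with Y hY
    have h2 := (arctan_bounds (l / Y) (by positivity)).2
    have h5 : (Y ^ 2 + l ^ 2) / 2 * arctan (l / Y) ≤ (Y ^ 2 + l ^ 2) / 2 * (l / Y) :=
      mul_le_mul_of_nonneg_left h2 (by positivity)
    have h6 : (Y ^ 2 + l ^ 2) / 2 * (l / Y) = l * Y / 2 + l ^ 3 / 2 / Y := by
      field_simp
    unfold hf
    linarith

theorem hf_top (l : ℝ) : Tendsto (fun Y => hf l Y - l * Y) atTop (𝓝 0) := by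
  rcases le_total 0 l with hl | hl
  · exact hf_top_pos l hl
  · have h := (hf_top_pos (-l) (by linarith)).neg
    rw [neg_zero] at h
    refine h.congr fun Y => ?_
    rw [hf_neg]; ring

theorem comparison {ι κ : Type*} [Fintype ι] [Fintype κ] (l : ι → ℝ) (m : κ → ℝ)
    (hl : ∑ i, l i = 0) (hm : ∑ i, m i = 0)
    (h : ∀ y : ℝ, 0 < y → ∑ i, arctan (l i / y) ≤ ∑ i, arctan (m i / y)) :
    ∑ i, m i * |m i| ≤ ∑ i, l i * |l i| := by
  set F : ℝ → ℝ := fun Y => ∑ i, hf (l i) Y - ∑ i, hf (m i) Y with hF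
  have hder : ∀ Y : ℝ, 0 < Y →
      HasDerivAt F (∑ i, Y * arctan (l i / Y) - ∑ i, Y * arctan (m i / Y)) Y := by
    intro Y hY
    exact (HasDerivAt.fun_sum fun i _ => hf_deriv (l i) Y hY).sub
      (HasDerivAt.fun_sum fun i _ => hf_deriv (m i) Y hY)
  have hanti : AntitoneOn F (Set.Ioi 0) := by
    refine antitoneOn_of_deriv_nonpos (convex_Ioi 0) ?_ ?_ ?_
    · intro Y hY
      exact (hder Y hY).continuousAt.continuousWithinAt
    · intro Y hY
      rw [interior_Ioi] at hY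
      exact (hder Y hY).differentiableAt.differentiableWithinAt
    · intro Y hY
      rw [interior_Ioi] at hY
      rw [(hder Y hY).deriv, ← Finset.mul_sum, ← Finset.mul_sum]
      have := mul_le_mul_of_nonneg_left (h Y hY) (le_of_lt hY)
      linarith
  have htop : Tendsto F atTop (𝓝 0) := by
    have h1 : Tendsto (fun Y => ∑ i, (hf (l i) Y - l i * Y) - ∑ i, (hf (m i) Y - m i * Y))
        atTop (𝓝 (∑ _i : ι, 0 - ∑ _i : κ, 0)) :=
      (tendsto_finsetSum _ fun i _ => hf_top (l i)).sub (tendsto_finsetSum _ fun i _ => hf_top (m i))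
    simp only [Finset.sum_const_zero, sub_zero] at h1
    refine h1.congr fun Y => ?_
    simp only [Finset.sum_sub_distrib, ← Finset.sum_mul, hl, hm, hF]
    ring
  have hnn : ∀ Y : ℝ, 0 < Y → 0 ≤ F Y := by
    intro Y hY
    refine le_of_tendsto htop ?_
    filter_upwards [eventually_ge_atTop Y] with Z hZ
    exact hanti hY (lt_of_lt_of_le hY hZ) hZ
  have hzero : Tendsto F (𝓝[>] 0) (𝓝 (∑ i, π / 4 * (l i * |l i|) - ∑ i, π / 4 * (m i * |m i|))) :=
    (tendsto_finsetSum _ fun i _ => hf_zero (l i)).sub (tendsto_finsetSum _ fun i _ => hf_zero (m i))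
  have hge : 0 ≤ ∑ i, π / 4 * (l i * |l i|) - ∑ i, π / 4 * (m i * |m i|) := by
    refine ge_of_tendsto hzero ?_
    filter_upwards [self_mem_nhdsWithin] with Y hY
    exact hnn Y hY
  rw [← Finset.mul_sum, ← Finset.mul_sum, ← mul_sub] at hge
  have hpi : 0 < π / 4 := by positivity
  have := (mul_nonneg_iff_of_pos_left hpi).1 hge
  linarith

/-- the argument of the product `∏ (y + i l_j)` -/
theorem factor_eq (l y : ℝ) (hy : 0 < y) :
    (y : ℂ) + l * Complex.I = (√(y ^ 2 + l ^ 2) : ℝ) * Complex.exp (arctan (l / y) * Complex.I) := by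
  have h1 : √(1 + (l / y) ^ 2) = √(y ^ 2 + l ^ 2) / y := by
    have : 1 + (l / y) ^ 2 = (y ^ 2 + l ^ 2) / y ^ 2 := by field_simp
    rw [this, sqrt_div (by positivity), sqrt_sq hy.le]
  have h2 : 0 < √(y ^ 2 + l ^ 2) := sqrt_pos.2 (by positivity)
  have hc : √(y ^ 2 + l ^ 2) * cos (arctan (l / y)) = y := by
    rw [cos_arctan, h1]; field_simp
  have hs : √(y ^ 2 + l ^ 2) * sin (arctan (l / y)) = l := by
    rw [sin_arctan, h1]; field_simp
  rw [Complex.exp_mul_I, ← Complex.ofReal_cos, ← Complex.ofReal_sin, mul_add, ← mul_assoc,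
    ← Complex.ofReal_mul, ← Complex.ofReal_mul, hc, hs]

theorem prod_eq {ι : Type*} [Fintype ι] (l : ι → ℝ) (y : ℝ) (hy : 0 < y) :
    ∃ R : ℝ, 0 < R ∧ (∏ i, ((y : ℂ) + l i * Complex.I)).re = R * cos (∑ i, arctan (l i / y)) ∧
      (∏ i, ((y : ℂ) + l i * Complex.I)).im = R * sin (∑ i, arctan (l i / y)) := by
  refine ⟨∏ i, √(y ^ 2 + l i ^ 2), Finset.prod_pos fun i _ => sqrt_pos.2 (by positivity), ?_⟩
  have h1 : (∏ i, ((y : ℂ) + l i * Complex.I))
      = ((∏ i, √(y ^ 2 + l i ^ 2) : ℝ) : ℂ) * Complex.exp ((∑ i, arctan (l i / y) : ℝ) * Complex.I) := by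
    rw [Finset.prod_congr rfl fun i _ => factor_eq (l i) y hy, Finset.prod_mul_distrib,
      ← Complex.exp_sum]
    push_cast
    rw [Finset.sum_mul]
  rw [h1, Complex.re_ofReal_mul, Complex.im_ofReal_mul, Complex.exp_ofReal_mul_I_re,
    Complex.exp_ofReal_mul_I_im]
  exact ⟨rfl, rfl⟩

theorem theta_bound {ι : Type*} [Fintype ι] (l : ι → ℝ)
    (hre : ∀ y : ℝ, 0 < y → 0 < (∏ i, ((y : ℂ) + l i * Complex.I)).re) (y : ℝ) (hy : 0 < y) :
    |∑ i, arctan (l i / y)| < π / 2 := by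
  by_contra hcon
  push Not at hcon
  set φ : ℝ → ℝ := fun y => |∑ i, arctan (l i / y)| with hφ
  have hcont : ContinuousOn φ (Set.Ioi 0) := by
    refine ContinuousOn.abs ?_
    refine continuousOn_finsetSum _ fun i _ => ?_
    refine continuous_arctan.comp_continuousOn ?_
    exact continuousOn_const.div continuousOn_id fun x hx => ne_of_gt hx
  have htop : Tendsto φ atTop (𝓝 0) := by
    have h1 : Tendsto (fun y : ℝ => ∑ i, arctan (l i / y)) atTop (𝓝 (∑ _i : ι, 0)) := by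
      refine tendsto_finsetSum _ fun i _ => ?_
      have h2 : Tendsto (fun y : ℝ => l i / y) atTop (𝓝 0) := tendsto_const_nhds.div_atTop tendsto_id
      have h3 := (continuous_arctan.tendsto 0).comp h2
      rw [arctan_zero] at h3
      exact h3
    have h2 := h1.abs
    simpa using h2
  have hev : ∀ᶠ z in atTop, φ z < π / 2 := htop.eventually_lt_const (by positivity)
  obtain ⟨z, hz1, hz2⟩ := (hev.and (eventually_ge_atTop y)).exists
  have hsub : Set.Icc y z ⊆ Set.Ioi 0 := fun x hx => lt_of_lt_of_le hy hx.1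
  have hivt := intermediate_value_Icc' hz2 (hcont.mono hsub)
  obtain ⟨x, hx, hxe⟩ := hivt ⟨hz1.le, hcon⟩
  have hx0 : 0 < x := hsub hx
  obtain ⟨R, hR, h1, -⟩ := prod_eq l x hx0
  have h2 := hre x hx0
  rw [h1, ← cos_abs] at h2
  have h3 : |∑ i, arctan (l i / x)| = π / 2 := hxe
  rw [h3, cos_pi_div_two, mul_zero] at h2
  exact lt_irrefl _ h2

theorem theta_eq {ι : Type*} [Fintype ι] (l : ι → ℝ)
    (hre : ∀ y : ℝ, 0 < y → 0 < (∏ i, ((y : ℂ) + l i * Complex.I)).re) (y : ℝ) (hy : 0 < y) :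
    ∑ i, arctan (l i / y) = arctan ((∏ i, ((y : ℂ) + l i * Complex.I)).im /
      (∏ i, ((y : ℂ) + l i * Complex.I)).re) := by
  have h1 := abs_lt.1 (theta_bound l hre y hy)
  obtain ⟨R, hR, h2, h3⟩ := prod_eq l y hy
  rw [h2, h3, mul_div_mul_left _ _ hR.ne', ← tan_eq_sin_div_cos, arctan_tan h1.1 h1.2]

/-- the comparison principle in terms of the products -/
theorem compare {ι κ : Type*} [Fintype ι] [Fintype κ] (l : ι → ℝ) (m : κ → ℝ)
    (hl : ∑ i, l i = 0) (hm : ∑ i, m i = 0)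
    (hrl : ∀ y : ℝ, 0 < y → 0 < (∏ i, ((y : ℂ) + l i * Complex.I)).re)
    (hrm : ∀ y : ℝ, 0 < y → 0 < (∏ i, ((y : ℂ) + m i * Complex.I)).re)
    (h : ∀ y : ℝ, 0 < y → (∏ i, ((y : ℂ) + l i * Complex.I)).im /
      (∏ i, ((y : ℂ) + l i * Complex.I)).re ≤ (∏ i, ((y : ℂ) + m i * Complex.I)).im /
      (∏ i, ((y : ℂ) + m i * Complex.I)).re) :
    ∑ i, m i * |m i| ≤ ∑ i, l i * |l i| := by
  refine comparison l m hl hm fun y hy => ?_
  rw [theta_eq l hrl y hy, theta_eq m hrm y hy]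
  exact arctan_mono (h y hy)

end Pool.Agent.R565.Sq
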