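import Mathlib

/-!
# A connected 2-regular graph is a cycle (explicit enumeration ending at a given vertex)
-/

set_option autoImplicit false

namespace Pool.Agent.R565.Sq

theorem cycle_equiv {V : Type} [Fintype V] [DecidableEq V] (G : SimpleGraph V) [DecidableRel G.Adj]
    (hc : G.Connected) (hd : ∀ v, G.degree v = 2) (v0 : V) :
    ∃ (p : ℕ) (f : Fin (p + 2) ≃ V), 1 ≤ p ∧ f (Fin.last (p + 1)) = v0 ∧
      ∀ i j, G.Adj (f i) (f j) ↔ (i.val + 1 = j.val ∨ j.val + 1 = i.val ∨
        (i.val = 0 ∧ j.val = p + 1) ∨ (i.val = p + 1 ∧ j.val = 0)) := by
  have hcyc : G.IsCycles := by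
    intro v _
    rw [Set.ncard_eq_toFinset_card', ← hd v, ← G.card_neighborFinset_eq_degree]
    rfl
  have hne : (G.neighborSet v0).Nonempty := by
    have h1 : 0 < G.degree v0 := by rw [hd]; norm_num
    obtain ⟨w, hw⟩ := (G.degree_pos_iff_exists_adj v0).1 h1
    exact ⟨w, hw⟩
  obtain ⟨q, hq, hv⟩ := hcyc.exists_cycle_toSubgraph_verts_eq_connectedComponentSupp
    (c := G.connectedComponentMk v0) (v := v0) rfl hne
  have hL := hq.three_le_length
  obtain ⟨p, hp⟩ : ∃ p, q.length = p + 2 := ⟨q.length - 2, by omega⟩
  have hp1 : 1 ≤ p := by omega
  have hinj := hq.getVert_injOn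
  have hf : Function.Bijective (fun i : Fin (p + 2) => q.getVert (i.val + 1)) := by
    constructor
    · intro i j hij
      have h1 := hinj (x₁ := i.val + 1) (x₂ := j.val + 1) (by
        simp only [Set.mem_ofPred_eq]; omega) (by simp only [Set.mem_ofPred_eq]; omega) hij
      exact Fin.ext (by omega)
    · intro x
      have hx : x ∈ q.toSubgraph.verts := by
        rw [hv, SimpleGraph.ConnectedComponent.mem_supp_iff, SimpleGraph.ConnectedComponent.eq]
        exact hc.preconnected x v0
      rw [SimpleGraph.Walk.mem_verts_toSubgraph, SimpleGraph.Walk.mem_support_iff_exists_getVert] at hx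
      obtain ⟨i, hi, hi2⟩ := hx
      rcases Nat.eq_zero_or_pos i with h0 | h0
      · subst h0
        refine ⟨⟨p + 1, by omega⟩, ?_⟩
        have h2 : q.getVert (p + 2) = v0 := by rw [← hp]; exact q.getVert_length
        rw [SimpleGraph.Walk.getVert_zero] at hi
        show q.getVert (p + 1 + 1) = x
        rw [← hi]; exact h2
      · refine ⟨⟨i - 1, by omega⟩, ?_⟩
        show q.getVert (i - 1 + 1) = x
        rw [show i - 1 + 1 = i by omega]; exact hi
  let f : Fin (p + 2) ≃ V := Equiv.ofBijective _ hf
  have hfv : ∀ i : Fin (p + 2), f i = q.getVert (i.val + 1) := fun i => rfl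
  refine ⟨p, f, hp1, ?_, ?_⟩
  · rw [hfv, Fin.val_last]
    have : p + 1 + 1 = q.length := by omega
    rw [this]; exact q.getVert_length
  · -- forward adjacencies
    have hstep : ∀ i : Fin (p + 2), ∀ j : Fin (p + 2), i.val + 1 = j.val → G.Adj (f i) (f j) := by
      intro i j hij
      rw [hfv, hfv, ← hij]
      exact q.adj_getVert_succ (by omega)
    have hclose : ∀ i : Fin (p + 2), ∀ j : Fin (p + 2), i.val = p + 1 → j.val = 0 →
        G.Adj (f i) (f j) := by
      intro i j hi hj
      rw [hfv, hfv, hi, hj]
      have h1 : q.getVert (p + 1 + 1) = q.getVert 0 := by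
        rw [show p + 1 + 1 = q.length by omega, q.getVert_length, q.getVert_zero]
      rw [h1]
      exact q.adj_getVert_succ (by omega)
    intro i j
    constructor
    · intro hadj
      -- the two neighbours of `f i`
      let a : Fin (p + 2) := if h : i.val = p + 1 then ⟨0, by omega⟩ else ⟨i.val + 1, by omega⟩
      let b : Fin (p + 2) := if h : i.val = 0 then ⟨p + 1, by omega⟩ else ⟨i.val - 1, by omega⟩
      have ha : G.Adj (f i) (f a) := by
        by_cases h : i.val = p + 1
        · have : a.val = 0 := by simp [a, h]
          exact hclose i a h this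
        · have : a.val = i.val + 1 := by simp [a, h]
          exact hstep i a this.symm
      have hb : G.Adj (f i) (f b) := by
        by_cases h : i.val = 0
        · have : b.val = p + 1 := by simp [b, h]
          exact (hclose b i this h).symm
        · have : b.val = i.val - 1 := by simp [b, h]
          exact (hstep b i (by omega)).symm
      have hab : a ≠ b := by
        intro hab
        have h1 := congrArg Fin.val hab
        by_cases h : i.val = p + 1
        · have e1 : a.val = 0 := by simp [a, h]
          have e2 : b.val = i.val - 1 := by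
            have : ¬ (i.val = 0) := by omega
            simp [b, this]
          omega
        · have e1 : a.val = i.val + 1 := by simp [a, h]
          by_cases h' : i.val = 0
          · have : b.val = p + 1 := by simp [b, h']
            omega
          · have : b.val = i.val - 1 := by simp [b, h']
            omega
      have hset : ({f a, f b} : Finset V) = G.neighborFinset (f i) := by
        apply Finset.eq_of_subset_of_card_le
        · intro x hx
          rw [Finset.mem_insert, Finset.mem_singleton] at hx
          rw [SimpleGraph.mem_neighborFinset]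
          rcases hx with rfl | rfl
          · exact ha
          · exact hb
        · rw [G.card_neighborFinset_eq_degree, hd, Finset.card_pair (fun h => hab (f.injective h))]
      have hj : f j ∈ ({f a, f b} : Finset V) := by
        rw [hset, SimpleGraph.mem_neighborFinset]; exact hadj
      rw [Finset.mem_insert, Finset.mem_singleton, f.injective.eq_iff, f.injective.eq_iff] at hj
      rcases hj with rfl | rfl
      · by_cases h : i.val = p + 1
        · have : a.val = 0 := by simp [a, h]
          exact Or.inr (Or.inr (Or.inr ⟨h, this⟩))
        · have : a.val = i.val + 1 := by simp [a, h]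
          exact Or.inl this.symm
      · by_cases h : i.val = 0
        · have : b.val = p + 1 := by simp [b, h]
          exact Or.inr (Or.inr (Or.inl ⟨h, this⟩))
        · have : b.val = i.val - 1 := by simp [b, h]
          exact Or.inr (Or.inl (by omega))
    · rintro (h | h | ⟨h, h'⟩ | ⟨h, h'⟩)
      · exact hstep i j h
      · exact (hstep j i h).symm
      · exact (hclose j i h' h).symm
      · exact hclose i j h h'

end Pool.Agent.R565.Sq
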