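import Mathlib

/-!
# Schur complement of one vertex and the weighted cycle determinant
-/

set_option autoImplicit false

open Complex

namespace Pool.Agent.R565.Sq

theorem det_schur {V : Type*} [Fintype V] [DecidableEq V] (M : Matrix V V ℂ) (v : V)
    (hv : M v v ≠ 0) :
    M.det = M v v * (Matrix.of fun (x y : (({v}ᶜ : Set V) : Type _)) =>
      M x y - M x v * M v y / M v v).det := by
  let e := Equiv.Set.sumCompl ({v} : Set V)
  rw [← Matrix.det_submatrix_equiv_self e M]
  rw [← Matrix.fromBlocks_toBlocks (M.submatrix e e)]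
  set A := (M.submatrix e e).toBlocks₁₁ with hA
  set B := (M.submatrix e e).toBlocks₁₂ with hB
  set C := (M.submatrix e e).toBlocks₂₁ with hC
  set D := (M.submatrix e e).toBlocks₂₂ with hD
  have hA1 : A = (M v v) • (1 : Matrix ({v} : Set V) ({v} : Set V) ℂ) := by
    ext ⟨x, hx⟩ ⟨y, hy⟩
    have hx' : x = v := hx
    have hy' : y = v := hy
    subst hx' ; subst hy'
    simp [hA, Matrix.toBlocks₁₁, e]
  let _ : Invertible A := by
    refine ⟨(M v v)⁻¹ • 1, ?_, ?_⟩
    · rw [hA1]; simp [smul_smul, hv]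
    · rw [hA1]; simp [smul_smul, hv]
  have hinv : ⅟A = (M v v)⁻¹ • 1 := rfl
  rw [Matrix.det_fromBlocks₁₁, hinv]
  congr 1
  · rw [hA1]; simp
  · congr 1
    ext ⟨x, hx⟩ ⟨y, hy⟩
    simp only [Matrix.sub_apply, Matrix.of_apply, Matrix.mul_smul, Matrix.mul_one,
      Matrix.smul_mul, Matrix.smul_apply, smul_eq_mul, Matrix.mul_apply]
    rw [Fintype.sum_unique]
    simp [hB, hC, hD, Matrix.toBlocks₁₂, Matrix.toBlocks₂₁, Matrix.toBlocks₂₂, e]
    ring

/-- continuants -/
def K {R : Type*} [CommSemiring R] (a : ℕ → R) : ℕ → ℕ → R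
  | _, 0 => 1
  | s, 1 => a s
  | s, (n + 2) => a s * K a (s + 1) (n + 1) + K a (s + 2) n

theorem K_zero {R : Type*} [CommSemiring R] (a : ℕ → R) (s : ℕ) : K a s 0 = 1 := by
  rw [K]

theorem K_one {R : Type*} [CommSemiring R] (a : ℕ → R) (s : ℕ) : K a s 1 = a s := by
  rw [K]

theorem K_add_two {R : Type*} [CommSemiring R] (a : ℕ → R) (s n : ℕ) :
    K a s (n + 2) = a s * K a (s + 1) (n + 1) + K a (s + 2) n := by
  rw [K]

theorem K_congr {R : Type*} [CommSemiring R] (a b : ℕ → R) : ∀ (n s t : ℕ),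
    (∀ i, i < n → a (s + i) = b (t + i)) → K a s n = K b t n
  | 0, s, t, _ => by rw [K_zero, K_zero]
  | 1, s, t, h => by
    rw [K_one, K_one]; simpa using h 0 (by omega)
  | (n + 2), s, t, h => by
    rw [K_add_two, K_add_two]
    have h0 : a s = b t := by simpa using h 0 (by omega)
    rw [h0, K_congr a b (n + 1) (s + 1) (t + 1) (fun i hi => by
      have := h (i + 1) (by omega)
      rw [show s + 1 + i = s + (i + 1) by ring, show t + 1 + i = t + (i + 1) by ring]
      exact this),
      K_congr a b n (s + 2) (t + 2) (fun i hi => by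
      have := h (i + 2) (by omega)
      rw [show s + 2 + i = s + (i + 2) by ring, show t + 2 + i = t + (i + 2) by ring]
      exact this)]

/-- the entries of the matrix of a weighted path `0 - 1 - ... - m` with all edges `I`, plus an
edge `z` between `0` and `m` -/
noncomputable def cent (m : ℕ) (a : ℕ → ℂ) (z : ℂ) (x y : ℕ) : ℂ :=
  (if x = y then a x else 0) + (if x + 1 = y ∨ y + 1 = x then I else 0) +
    (if (x = 0 ∧ y = m) ∨ (x = m ∧ y = 0) then z else 0)

noncomputable def cyc (m : ℕ) (a : ℕ → ℂ) (z : ℂ) : Matrix (Fin (m + 1)) (Fin (m + 1)) ℂ :=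
  Matrix.of fun i j => cent m a z i.val j.val

noncomputable def nxt (m : ℕ) (a : ℕ → ℂ) (z : ℂ) : ℕ → ℂ := fun i =>
  a (i + 1) + (if i = 0 then 1 / a 0 else 0) - (if i = m then z ^ 2 / a 0 else 0)

noncomputable def esucc (n : ℕ) : Fin n ≃ (({0}ᶜ : Set (Fin (n + 1))) : Type _) :=
  Equiv.ofBijective (fun i => ⟨i.succ, by simp [Fin.succ_ne_zero]⟩) (by
    constructor
    · intro i j h
      have := congrArg Subtype.val h
      exact Fin.succ_injective _ this
    · rintro ⟨x, hx⟩
      have hx' : x ≠ 0 := hx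
      obtain ⟨i, hi⟩ := Fin.exists_succ_eq.2 hx'
      exact ⟨i, Subtype.ext hi⟩)

theorem esucc_val (n : ℕ) (i : Fin n) : ((esucc n i : (({0}ᶜ : Set (Fin (n + 1))) : Type _)) :
    Fin (n + 1)) = i.succ := rfl

theorem cent_step (m : ℕ) (hm : 1 ≤ m) (a : ℕ → ℂ) (z : ℂ) (h0 : a 0 ≠ 0) (x y : ℕ)
    (hx : x ≤ m) (hy : y ≤ m) :
    cent (m + 1) a z (x + 1) (y + 1) - cent (m + 1) a z (x + 1) 0 * cent (m + 1) a z 0 (y + 1) / a 0
      = cent m (nxt m a z) (-I * z / a 0) x y := by
  have e1 : cent (m + 1) a z (x + 1) 0 = (if x = 0 then I else 0) + (if x = m then z else 0) := by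
    simp [cent]
  have e2 : cent (m + 1) a z 0 (y + 1) = (if y = 0 then I else 0) + (if y = m then z else 0) := by
    simp [cent, eq_comm]
  have e3 : cent (m + 1) a z (x + 1) (y + 1) = (if x = y then a (x + 1) else 0) +
      (if x + 1 = y ∨ y + 1 = x then I else 0) := by
    simp [cent]
  rw [e1, e2, e3]
  unfold cent nxt
  have hm0 : ¬ (0 = m) := by omega
  have hm0' : ¬ (m = 0) := by omega
  by_cases hx0 : x = 0
  · subst hx0
    by_cases hy0 : y = 0
    · subst hy0
      simp [hm0]
      ring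
    · by_cases hym : y = m
      · subst hym
        simp [hm0, hm0']
        ring
      · have : ¬ (0 = y) := by omega
        simp [hm0, hym, hy0, this]
  · by_cases hxm : x = m
    · subst hxm
      by_cases hy0 : y = 0
      · subst hy0
        simp [hm0, hm0']
        ring
      · by_cases hym : y = x
        · subst hym
          simp [hm0, hm0']
          ring
        · have : ¬ (x = y) := by omega
          simp [hm0', hy0, hym, this]
    · simp [hx0, hxm]

theorem cyc_step (m : ℕ) (hm : 1 ≤ m) (a : ℕ → ℂ) (z : ℂ) (h0 : a 0 ≠ 0) :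
    (cyc (m + 1) a z).det = a 0 * (cyc m (nxt m a z) (-I * z / a 0)).det := by
  have h00 : cyc (m + 1) a z 0 0 = a 0 := by
    simp [cyc, cent]
  rw [det_schur (cyc (m + 1) a z) 0 (by rw [h00]; exact h0), h00]
  congr 1
  rw [← Matrix.det_submatrix_equiv_self (esucc (m + 1))]
  congr 1
  ext i j
  exact cent_step m hm a z h0 i.val j.val (by omega) (by omega)

theorem K_nxt (m n : ℕ) (hn : n + 1 ≤ m) (a : ℕ → ℂ) (z : ℂ) (h0 : a 0 ≠ 0) :
    a 0 * K (nxt m a z) 0 (n + 1) = K a 0 (n + 2) := by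
  rw [K_add_two]
  rcases n with _ | n
  · rw [K_one, K_one, K_zero]
    have : ¬ (0 = m) := by omega
    simp [nxt, this]
    field_simp
  · rw [K_add_two, K_add_two]
    have h1 : K (nxt m a z) (0 + 1) (n + 1) = K a (0 + 1 + 1) (n + 1) := by
      apply K_congr
      intro i hi
      have h2 : ¬ (0 + 1 + i = 0) := by omega
      have h3 : ¬ (0 + 1 + i = m) := by omega
      simp only [nxt, if_neg h2, if_neg h3]
      rw [add_zero, sub_zero]
      congr 1
      omega
    have h2 : K (nxt m a z) (0 + 2) n = K a (0 + 1 + 2) n := by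
      apply K_congr
      intro i hi
      have h2 : ¬ (0 + 2 + i = 0) := by omega
      have h3 : ¬ (0 + 2 + i = m) := by omega
      simp only [nxt, if_neg h2, if_neg h3]
      rw [add_zero, sub_zero]
      congr 1
      omega
    rw [h1, h2]
    have h3 : nxt m a z 0 = a 1 + 1 / a 0 := by
      have : ¬ (0 = m) := by omega
      simp [nxt, this]
    rw [h3]
    have h4 : K a (0 + 2) (n + 1) = K a (0 + 1 + 1) (n + 1) := by
      congr 1
    rw [h4]
    simp only [zero_add]
    field_simp
    ring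

theorem cyc_det : ∀ (p : ℕ) (a : ℕ → ℂ) (z : ℂ),
    (∀ i, i ≤ p → ∃ r : ℝ, 0 < r ∧ a i = r) →
    (cyc (p + 1) a z).det = a (p + 1) * K a 0 (p + 1) + K a 0 p - z ^ 2 * K a 1 p +
      2 * z * (-I) ^ (p + 1)
  | 0, a, z, _ => by
    rw [Matrix.det_fin_two]
    simp [cyc, cent, K_zero, K_one]
    ring_nf
    rw [I_sq]
    ring
  | (p + 1), a, z, h => by
    obtain ⟨r0, hr0, ha0⟩ := h 0 (by omega)
    have h0 : a 0 ≠ 0 := by
      rw [ha0]; exact_mod_cast hr0.ne'
    rw [cyc_step (p + 1) (by omega) a z h0]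
    rw [cyc_det p (nxt (p + 1) a z) (-I * z / a 0) (by
      intro i hi
      have him : ¬ (i = p + 1) := by omega
      obtain ⟨r, hr, ha⟩ := h (i + 1) (by omega)
      by_cases hi0 : i = 0
      · refine ⟨r + 1 / r0, by positivity, ?_⟩
        simp only [nxt, if_pos hi0, if_neg him]
        rw [ha, ha0]
        push_cast
        ring
      · refine ⟨r, hr, ?_⟩
        simp only [nxt, if_neg hi0, if_neg him]
        rw [ha]; ring)]
    have hlast : nxt (p + 1) a z (p + 1) = a (p + 2) - z ^ 2 / a 0 := by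
      simp [nxt]
    have h1 : K (nxt (p + 1) a z) 0 (p + 1) * a 0 = K a 0 (p + 2) := by
      rw [mul_comm]; exact K_nxt (p + 1) p le_rfl a z h0
    have h2 : K (nxt (p + 1) a z) 0 p * a 0 = K a 0 (p + 1) := by
      rcases p with _ | p
      · rw [K_zero, K_one]; simp
      · rw [mul_comm]; exact K_nxt (p + 1 + 1) p (by omega) a z h0
    have h3 : K (nxt (p + 1) a z) 1 p = K a 2 p := by
      apply K_congr
      intro i hi
      have h2 : ¬ (1 + i = 0) := by omega
      have h3 : ¬ (1 + i = p + 1) := by omega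
      simp only [nxt, if_neg h2, if_neg h3]
      rw [add_zero, sub_zero]
      congr 1
      omega
    have h4 : K a 0 (p + 2) = a 0 * K a 1 (p + 1) + K a 2 p := K_add_two a 0 p
    rw [hlast, h3]
    have h5 : K a 0 (p + 1 + 1) = K a 0 (p + 2) := rfl
    rw [h5]
    have h6 : a (p + 1 + 1) = a (p + 2) := rfl
    rw [h6, pow_succ (-I) (p + 1)]
    set X := K (nxt (p + 1) a z) 0 (p + 1)
    set Y := K (nxt (p + 1) a z) 0 p
    set P := (-I) ^ (p + 1)
    have e1 : a 0 * ((a (p + 2) - z ^ 2 / a 0) * X + Y - (-I * z / a 0) ^ 2 * K a 2 p +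
        2 * (-I * z / a 0) * P) = (a (p + 2) - z ^ 2 / a 0) * (X * a 0) + Y * a 0
        - (I ^ 2) * z ^ 2 / a 0 * K a 2 p + 2 * z * (P * -I) := by
      field_simp
    rw [e1, h1, h2, h4, I_sq]
    field_simp
    ring

theorem K_ofReal (a : ℕ → ℝ) : ∀ (n s : ℕ), K (fun i => (a i : ℂ)) s n = ((K a s n : ℝ) : ℂ)
  | 0, s => by rw [K_zero, K_zero]; simp
  | 1, s => by rw [K_one, K_one]
  | (n + 2), s => by
    rw [K_add_two, K_add_two, K_ofReal a (n + 1), K_ofReal a n]
    push_cast
    rfl

theorem K_nonneg (a : ℕ → ℝ) : ∀ (n s : ℕ), (∀ i, i < n → 0 ≤ a (s + i)) → 0 ≤ K a s n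
  | 0, s, _ => by rw [K_zero]; norm_num
  | 1, s, h => by rw [K_one]; simpa using h 0 (by omega)
  | (n + 2), s, h => by
    rw [K_add_two]
    have h0 : 0 ≤ a s := by simpa using h 0 (by omega)
    have h1 := K_nonneg a (n + 1) (s + 1) (fun i hi => by
      have := h (i + 1) (by omega)
      rwa [show s + 1 + i = s + (i + 1) by ring])
    have h2 := K_nonneg a n (s + 2) (fun i hi => by
      have := h (i + 2) (by omega)
      rwa [show s + 2 + i = s + (i + 2) by ring])
    positivity

/-- monotonicity of the continuants -/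
theorem K_mono (a b : ℕ → ℝ) : ∀ (n s t : ℕ), (∀ i, i < n → 0 ≤ b (t + i)) →
    (∀ i, i < n → b (t + i) ≤ a (s + i)) → K b t n ≤ K a s n
  | 0, s, t, _, _ => by rw [K_zero, K_zero]
  | 1, s, t, _, h => by rw [K_one, K_one]; simpa using h 0 (by omega)
  | (n + 2), s, t, hb, h => by
    rw [K_add_two, K_add_two]
    have h0 : b t ≤ a s := by simpa using h 0 (by omega)
    have hb0 : 0 ≤ b t := by simpa using hb 0 (by omega)
    have h1 := K_mono a b (n + 1) (s + 1) (t + 1) (fun i hi => by
      have := hb (i + 1) (by omega)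
      rwa [show t + 1 + i = t + (i + 1) by ring]) (fun i hi => by
      have := h (i + 1) (by omega)
      rwa [show t + 1 + i = t + (i + 1) by ring, show s + 1 + i = s + (i + 1) by ring])
    have h2 := K_mono a b n (s + 2) (t + 2) (fun i hi => by
      have := hb (i + 2) (by omega)
      rwa [show t + 2 + i = t + (i + 2) by ring]) (fun i hi => by
      have := h (i + 2) (by omega)
      rwa [show t + 2 + i = t + (i + 2) by ring, show s + 2 + i = s + (i + 2) by ring])
    have h3 : 0 ≤ K b (t + 1) (n + 1) := K_nonneg b (n + 1) (t + 1) (fun i hi => by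
      have := hb (i + 1) (by omega)
      rwa [show t + 1 + i = t + (i + 1) by ring])
    have := mul_le_mul h0 h1 h3 (le_trans hb0 h0)
    linarith

end Pool.Agent.R565.Sq
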