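import Mathlib
import Pool.Agent.R565.SqDet
import Pool.Agent.R565.SqCyc

/-!
# Leaf elimination for connected graphs with as many edges as vertices
-/

set_option autoImplicit false

open Complex

namespace Pool.Agent.R565.Sq

open scoped Classical in
/-- the matrix `diag w + i A` -/
noncomputable def Mat {V : Type} [DecidableEq V] (G : SimpleGraph V) (w : V → ℝ) : Matrix V V ℂ :=
  Matrix.of fun x y => (if x = y then (w x : ℂ) else 0) + (if G.Adj x y then I else 0)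

open scoped Classical in
theorem sum_compl {V : Type} [Fintype V] [DecidableEq V] {M : Type*} [AddCommMonoid M] (f : V → M)
    (v : V) [Fintype (({v}ᶜ : Set V) : Type)] : ∑ x, f x = f v + ∑ x : (({v}ᶜ : Set V) : Type), f x := by
  rw [← (Equiv.Set.sumCompl ({v} : Set V)).sum_comp, Fintype.sum_sum_type]
  simp only [Equiv.Set.sumCompl_apply_inl, Equiv.Set.sumCompl_apply_inr]
  congr 1
  rw [Fintype.sum_unique]; rfl

open scoped Classical in
theorem leaf_step {V : Type} [Fintype V] [DecidableEq V] (G : SimpleGraph V) (w : V → ℝ) (v u : V)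
    (hw : 0 < w v) (hadj : ∀ x, G.Adj v x ↔ x = u) :
    (Mat G w).det = (w v : ℂ) * (Mat (G.induce ({v}ᶜ : Set V))
      (fun x => w x + if (x : V) = u then 1 / w v else 0)).det := by
  have hvv : Mat G w v v = w v := by simp [Mat]
  have hne : (w v : ℂ) ≠ 0 := by exact_mod_cast hw.ne'
  rw [det_schur (Mat G w) v (by rw [hvv]; exact hne), hvv]
  congr 2
  ext ⟨x, hx⟩ ⟨y, hy⟩
  have hxv : x ≠ v := hx
  have hyv : y ≠ v := hy
  have e1 : Mat G w x v = if x = u then I else 0 := by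
    simp only [Mat, Matrix.of_apply, if_neg hxv, zero_add, G.adj_comm x v, hadj]
  have e2 : Mat G w v y = if y = u then I else 0 := by
    simp only [Mat, Matrix.of_apply, if_neg (Ne.symm hyv), zero_add, hadj]
  simp only [Matrix.of_apply]
  rw [e1, e2]
  simp only [Mat, Matrix.of_apply, Subtype.mk.injEq, SimpleGraph.comap_adj,
    Function.Embedding.subtype_apply]
  have hI : I * I = -1 := I_mul_I
  by_cases hxu : x = u
  · by_cases hyu : y = u
    · subst hxu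
      subst hyu
      simp
      field_simp
      ring
    · have h2 : ¬ (u = y) := fun h => hyu h.symm
      simp [hxu, hyu, h2]
  · by_cases hyu : y = u
    · have : ¬ (x = y) := by rintro rfl; exact hxu hyu
      simp [hxu, hyu]
    · simp [hxu]

noncomputable def T5 (N : ℕ) (y : ℝ) : ℝ :=
  y ^ 5 + 5 * y ^ 3 + 5 * y + y / (y ^ 2 + (N - 6)) * (y ^ 4 + 3 * y ^ 2 + 1)

noncomputable def T3 (N : ℕ) (y : ℝ) : ℝ :=
  y ^ 3 + 3 * y + y / (y ^ 2 + (N - 4)) * (y ^ 2 + 1)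

def Concl (N : ℕ) (y : ℝ) (D : ℂ) : Prop :=
  ∃ P c : ℝ, 0 < P ∧ ((D = P * (c + 2 * I) ∧ T5 N y ≤ c) ∨ (D = P * (c - 2 * I) ∧ T3 N y ≤ c))

theorem T3_le (N : ℕ) (hN : 19 ≤ N) (y : ℝ) (hy : 0 < y) : T3 N y ≤ y ^ 3 + 4 * y := by
  have hN' : (19 : ℝ) ≤ N := by exact_mod_cast hN
  unfold T3
  have h1 : y / (y ^ 2 + (N - 4)) * (y ^ 2 + 1) ≤ y := by
    have h2 : 0 < y ^ 2 + ((N : ℝ) - 4) := by nlinarith [sq_nonneg y]
    rw [div_mul_eq_mul_div, div_le_iff₀ h2]
    nlinarith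
  linarith

theorem T5_le (N : ℕ) (hN : 19 ≤ N) (y : ℝ) (hy : 0 < y) :
    T5 N y ≤ y ^ 5 + 6 * y ^ 3 + 7 * y := by
  have hN' : (19 : ℝ) ≤ N := by exact_mod_cast hN
  unfold T5
  have h1 : y / (y ^ 2 + (N - 6)) * (y ^ 4 + 3 * y ^ 2 + 1) ≤ y ^ 3 + 2 * y := by
    have h2 : 0 < y ^ 2 + ((N : ℝ) - 6) := by nlinarith [sq_nonneg y]
    rw [div_mul_eq_mul_div, div_le_iff₀ h2]
    have h3 : 0 < y ^ 3 := by positivity
    nlinarith [mul_nonneg hy.le (by linarith : (0 : ℝ) ≤ (N : ℝ) - 19),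
      mul_nonneg h3.le (by linarith : (0 : ℝ) ≤ (N : ℝ) - 19)]
  linarith

/-- constant continuants -/
theorem kap (y : ℝ) (s n : ℕ) : K (fun _ : ℕ => y) s n = K (fun _ : ℕ => y) 0 n :=
  K_congr _ _ n s 0 fun _ _ => rfl

theorem kap_rec (y : ℝ) (n : ℕ) : K (fun _ : ℕ => y) 0 (n + 2) =
    y * K (fun _ : ℕ => y) 0 (n + 1) + K (fun _ : ℕ => y) 0 n := by
  rw [K_add_two, kap y (0 + 1), kap y (0 + 2)]

theorem kap_nonneg (y : ℝ) (hy : 0 < y) (n : ℕ) : 0 ≤ K (fun _ : ℕ => y) 0 n :=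
  K_nonneg _ n 0 fun _ _ => hy.le

theorem kap_mono (y : ℝ) (hy : 0 < y) (n j : ℕ) :
    K (fun _ : ℕ => y) 0 n ≤ K (fun _ : ℕ => y) 0 (n + 2 * j) := by
  induction j with
  | zero => simp
  | succ j ih =>
    rw [show n + 2 * (j + 1) = (n + 2 * j) + 2 by ring, kap_rec]
    have := mul_nonneg hy.le (kap_nonneg y hy (n + 2 * j + 1))
    linarith

theorem kap_vals (y : ℝ) : K (fun _ : ℕ => y) 0 1 = y ∧ K (fun _ : ℕ => y) 0 2 = y ^ 2 + 1 ∧
    K (fun _ : ℕ => y) 0 3 = y ^ 3 + 2 * y ∧ K (fun _ : ℕ => y) 0 4 = y ^ 4 + 3 * y ^ 2 + 1 ∧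
    K (fun _ : ℕ => y) 0 5 = y ^ 5 + 4 * y ^ 3 + 3 * y ∧
    K (fun _ : ℕ => y) 0 6 = y ^ 6 + 5 * y ^ 4 + 6 * y ^ 2 + 1 ∧
    K (fun _ : ℕ => y) 0 7 = y ^ 7 + 6 * y ^ 5 + 10 * y ^ 3 + 4 * y ∧
    K (fun _ : ℕ => y) 0 8 = y ^ 8 + 7 * y ^ 6 + 15 * y ^ 4 + 10 * y ^ 2 + 1 := by
  have h0 : K (fun _ : ℕ => y) 0 0 = 1 := K_zero _ _
  have h1 : K (fun _ : ℕ => y) 0 1 = y := K_one _ _
  have h2 : K (fun _ : ℕ => y) 0 2 = y ^ 2 + 1 := by rw [kap_rec, h1, h0]; ring
  have h3 : K (fun _ : ℕ => y) 0 3 = y ^ 3 + 2 * y := by rw [kap_rec, h2, h1]; ring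
  have h4 : K (fun _ : ℕ => y) 0 4 = y ^ 4 + 3 * y ^ 2 + 1 := by rw [kap_rec, h3, h2]; ring
  have h5 : K (fun _ : ℕ => y) 0 5 = y ^ 5 + 4 * y ^ 3 + 3 * y := by rw [kap_rec, h4, h3]; ring
  have h6 : K (fun _ : ℕ => y) 0 6 = y ^ 6 + 5 * y ^ 4 + 6 * y ^ 2 + 1 := by
    rw [kap_rec, h5, h4]; ring
  have h7 : K (fun _ : ℕ => y) 0 7 = y ^ 7 + 6 * y ^ 5 + 10 * y ^ 3 + 4 * y := by
    rw [kap_rec, h6, h5]; ring
  have h8 : K (fun _ : ℕ => y) 0 8 = y ^ 8 + 7 * y ^ 6 + 15 * y ^ 4 + 10 * y ^ 2 + 1 := by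
    rw [kap_rec, h7, h6]; ring
  exact ⟨h1, h2, h3, h4, h5, h6, h7, h8⟩

/-- the base case: a weighted odd cycle -/
theorem base_case {V : Type} [Fintype V] [DecidableEq V] (G : SimpleGraph V) [DecidableRel G.Adj]
    (hc : G.Connected) (hd : ∀ v, G.degree v = 2) (hcol : ¬ G.Colorable 2) (w : V → ℝ) (s : V → ℕ)
    (N : ℕ) (hN : 19 ≤ N) (y : ℝ) (hy : 0 < y) (hs1 : ∀ v, 1 ≤ s v) (hsN : ∑ v, s v = N)
    (hw1 : ∀ v, y ≤ w v) (hw2 : ∀ v, 2 ≤ s v → y + y / (y ^ 2 + (s v - 2)) ≤ w v) :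
    Concl N y (Mat G w).det := by
  obtain ⟨v0, hv0⟩ : ∃ v0 : V, (∃ v, 2 ≤ s v) → 2 ≤ s v0 := by
    by_cases h : ∃ v, 2 ≤ s v
    · obtain ⟨v, hv⟩ := h
      exact ⟨v, fun _ => hv⟩
    · obtain ⟨v⟩ := hc.nonempty
      exact ⟨v, fun h' => absurd h' h⟩
  obtain ⟨p, f, hp, hf0, hadj⟩ := cycle_equiv G hc hd v0
  -- the length is odd
  have hodd : ¬ Even p := by
    intro hev
    apply hcol
    refine ⟨SimpleGraph.Coloring.mk (fun v => if (f.symm v).val % 2 = 0 then (0 : Fin 2) else 1) ?_⟩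
    intro u v huv
    have h1 := (hadj (f.symm u) (f.symm v)).1 (by simpa using huv)
    obtain ⟨r, hr⟩ := hev
    have e1 : (f.symm u).val % 2 ≠ (f.symm v).val % 2 := by omega
    intro h2
    apply e1
    by_cases h3 : (f.symm u).val % 2 = 0
    · by_cases h4 : (f.symm v).val % 2 = 0
      · omega
      · simp [h3, h4] at h2
    · by_cases h4 : (f.symm v).val % 2 = 0
      · simp [h3, h4] at h2
      · omega
  -- the weights along the cycle
  let ar : ℕ → ℝ := fun i => if h : i < p + 2 then w (f ⟨i, h⟩) else y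
  have har : ∀ i, y ≤ ar i := by
    intro i
    by_cases h : i < p + 2
    · simp only [ar, dif_pos h]; exact hw1 _
    · simp only [ar, dif_neg h]; exact le_rfl
  have hdet : (Mat G w).det = (cyc (p + 1) (fun i => (ar i : ℂ)) I).det := by
    rw [← Matrix.det_submatrix_equiv_self f]
    congr 1
    ext i j
    simp only [Matrix.submatrix_apply, Mat, cyc, cent, Matrix.of_apply, f.injective.eq_iff,
      Fin.ext_iff, hadj i j]
    have hi : ar i.val = w (f i) := by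
      simp only [ar, dif_pos i.2]
    rw [hi]
    have hi2 := i.2
    have hj2 := j.2
    by_cases h1 : i.val + 1 = j.val ∨ j.val + 1 = i.val
    · have h2 : ¬ ((i.val = 0 ∧ j.val = p + 1) ∨ (i.val = p + 1 ∧ j.val = 0)) := by omega
      have h3 : i.val + 1 = j.val ∨ j.val + 1 = i.val ∨
        (i.val = 0 ∧ j.val = p + 1) ∨ (i.val = p + 1 ∧ j.val = 0) := by tauto
      rw [if_pos h1, if_neg h2, if_pos h3, add_zero]
    · by_cases h2 : (i.val = 0 ∧ j.val = p + 1) ∨ (i.val = p + 1 ∧ j.val = 0)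
      · have h3 : i.val + 1 = j.val ∨ j.val + 1 = i.val ∨
          (i.val = 0 ∧ j.val = p + 1) ∨ (i.val = p + 1 ∧ j.val = 0) := by tauto
        rw [if_neg h1, if_pos h2, if_pos h3, add_zero]
      · have h3 : ¬ (i.val + 1 = j.val ∨ j.val + 1 = i.val ∨
          (i.val = 0 ∧ j.val = p + 1) ∨ (i.val = p + 1 ∧ j.val = 0)) := by tauto
        rw [if_neg h1, if_neg h2, if_neg h3, add_zero, add_zero]
  have hform := cyc_det p (fun i => (ar i : ℂ)) I (fun i _ => ⟨ar i, lt_of_lt_of_le hy (har i), rfl⟩)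
  rw [K_ofReal, K_ofReal, K_ofReal] at hform
  set c : ℝ := ar (p + 1) * K ar 0 (p + 1) + K ar 0 p + K ar 1 p with hcdef
  obtain ⟨j, hj⟩ : ∃ j, p + 1 = 2 * j := by
    rcases Nat.even_or_odd p with h | h
    · exact absurd h hodd
    · obtain ⟨r, hr⟩ := h
      exact ⟨r + 1, by omega⟩
  have hdet2 : (Mat G w).det = c + 2 * (-1) ^ j * I := by
    rw [hdet, hform, hcdef, hj, pow_mul, neg_sq, I_sq]
    push_cast
    ring
  -- lower bound
  set κ : ℕ → ℝ := fun n => K (fun _ : ℕ => y) 0 n with hκ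
  have hb1 : κ (p + 1) ≤ K ar 0 (p + 1) := K_mono ar (fun _ => y) (p + 1) 0 0
    (fun _ _ => hy.le) (fun i _ => har _)
  have hb2 : κ p ≤ K ar 0 p := K_mono ar (fun _ => y) p 0 0 (fun _ _ => hy.le) (fun i _ => har _)
  have hb3 : κ p ≤ K ar 1 p := K_mono ar (fun _ => y) p 1 0 (fun _ _ => hy.le) (fun i _ => har _)
  have hκ0 : ∀ n, 0 ≤ κ n := fun n => kap_nonneg y hy n
  have hlast : ar (p + 1) = w v0 := by
    have h : p + 1 < p + 2 := by omega
    simp only [ar, dif_pos h]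
    rw [← hf0]; rfl
  have hcge : w v0 * κ (p + 1) + 2 * κ p ≤ c := by
    rw [hcdef, hlast]
    have h1 : 0 ≤ w v0 := le_trans hy.le (hw1 v0)
    have := mul_le_mul_of_nonneg_left hb1 h1
    linarith
  have hcge' : y * κ (p + 1) + 2 * κ p ≤ c := by
    have := mul_le_mul_of_nonneg_right (hw1 v0) (hκ0 (p + 1))
    linarith
  obtain ⟨k1, k2, k3, k4, k5, k6, k7, k8⟩ := kap_vals y
  -- the special vertex
  have hcard : Fintype.card V = p + 2 := by
    rw [← Fintype.card_congr f, Fintype.card_fin]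
  have hspec : p + 2 < N → y + y / (y ^ 2 + ((N : ℝ) - (p + 3))) ≤ w v0 := by
    intro hlt
    have hex : ∃ v, 2 ≤ s v := by
      by_contra hcon
      push Not at hcon
      have h1 : ∑ v, s v ≤ ∑ _v : V, 1 := Finset.sum_le_sum fun v _ => by
        have := hcon v; omega
      rw [hsN, Finset.sum_const, Finset.card_univ, hcard] at h1
      simp at h1
      omega
    have h2 := hv0 hex
    have h3 := hw2 v0 h2
    have h4 : s v0 + (p + 1) ≤ N := by
      have h5 := sum_compl s v0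
      rw [hsN] at h5
      have h6 : p + 1 ≤ ∑ x : (({v0}ᶜ : Set V) : Type), s x := by
        have h7 : ∑ _x : (({v0}ᶜ : Set V) : Type), 1 ≤ ∑ x : (({v0}ᶜ : Set V) : Type), s x :=
          Finset.sum_le_sum fun v _ => hs1 v
        have h8 := sum_compl (fun _ : V => 1) v0
        simp only [Finset.sum_const, Finset.card_univ, hcard, smul_eq_mul, mul_one] at h8
        simp only [Finset.sum_const, Finset.card_univ, smul_eq_mul, mul_one] at h7
        omega
      omega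
    refine le_trans ?_ h3
    have h5 : (s v0 : ℝ) + (p + 1) ≤ N := by exact_mod_cast h4
    have h6 : (2 : ℝ) ≤ s v0 := by exact_mod_cast h2
    have h7 : 0 < y ^ 2 + ((s v0 : ℝ) - 2) := by
      have : 0 < y ^ 2 := by positivity
      linarith
    have h8 : y ^ 2 + ((s v0 : ℝ) - 2) ≤ y ^ 2 + ((N : ℝ) - (p + 3)) := by linarith
    have := div_le_div_of_nonneg_left hy.le h7 h8
    linarith
  -- parity of j
  rcases Nat.even_or_odd j with hje | hjo
  · -- 1 mod 4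
    refine ⟨1, c, one_pos, Or.inl ⟨?_, ?_⟩⟩
    · rw [hdet2, hje.neg_one_pow]
      push_cast
      ring
    · obtain ⟨r, hr⟩ := hje
      by_cases hp3 : p = 3
      · subst hp3
        have h1 := hspec (by omega)
        have h2 : κ (3 + 1) = y ^ 4 + 3 * y ^ 2 + 1 := k4
        have h3 : κ 3 = y ^ 3 + 2 * y := k3
        rw [h2, h3] at hcge
        unfold T5
        have h4 : (N : ℝ) - ((3 : ℕ) + 3) = N - 6 := by push_cast; ring
        rw [h4] at h1
        have h5 : 0 ≤ y ^ 4 + 3 * y ^ 2 + 1 := by positivity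
        have h6 := mul_le_mul_of_nonneg_right h1 h5
        nlinarith
      · refine le_trans (T5_le N hN y hy) (le_trans ?_ hcge')
        obtain ⟨q, hq⟩ : ∃ q, p = 7 + 2 * q := ⟨(p - 7) / 2, by omega⟩
        have h1 : κ 7 ≤ κ p := by rw [hq]; exact kap_mono y hy 7 q
        have h2 : κ 8 ≤ κ (p + 1) := by
          rw [hq, show 7 + 2 * q + 1 = 8 + 2 * q by ring]; exact kap_mono y hy 8 q
        have h3 : κ 8 = y ^ 8 + 7 * y ^ 6 + 15 * y ^ 4 + 10 * y ^ 2 + 1 := k8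
        have h4 : κ 7 = y ^ 7 + 6 * y ^ 5 + 10 * y ^ 3 + 4 * y := k7
        rw [h3] at h2
        rw [h4] at h1
        have h5 := mul_le_mul_of_nonneg_left h2 hy.le
        have h6 : 0 ≤ y ^ 9 := by positivity
        have h7 : 0 ≤ y ^ 7 := by positivity
        have h8 : 0 ≤ y ^ 5 := by positivity
        have h9 : 0 ≤ y ^ 3 := by positivity
        nlinarith
  · -- 3 mod 4
    refine ⟨1, c, one_pos, Or.inr ⟨?_, ?_⟩⟩
    · rw [hdet2, hjo.neg_one_pow]
      push_cast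
      ring
    · obtain ⟨r, hr⟩ := hjo
      by_cases hp1 : p = 1
      · subst hp1
        have h1 := hspec (by omega)
        have h2 : κ (1 + 1) = y ^ 2 + 1 := k2
        have h3 : κ 1 = y := k1
        rw [h2, h3] at hcge
        unfold T3
        have h4 : (N : ℝ) - ((1 : ℕ) + 3) = N - 4 := by push_cast; ring
        rw [h4] at h1
        have h5 : 0 ≤ y ^ 2 + 1 := by positivity
        have h6 := mul_le_mul_of_nonneg_right h1 h5
        nlinarith
      · refine le_trans (T3_le N hN y hy) (le_trans ?_ hcge')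
        obtain ⟨q, hq⟩ : ∃ q, p = 5 + 2 * q := ⟨(p - 5) / 2, by omega⟩
        have h1 : κ 5 ≤ κ p := by rw [hq]; exact kap_mono y hy 5 q
        have h2 : κ 6 ≤ κ (p + 1) := by
          rw [hq, show 5 + 2 * q + 1 = 6 + 2 * q by ring]; exact kap_mono y hy 6 q
        have h3 : κ 6 = y ^ 6 + 5 * y ^ 4 + 6 * y ^ 2 + 1 := k6
        have h4 : κ 5 = y ^ 5 + 4 * y ^ 3 + 3 * y := k5
        rw [h3] at h2
        rw [h4] at h1
        have h5 := mul_le_mul_of_nonneg_left h2 hy.le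
        have h7 : 0 ≤ y ^ 7 := by positivity
        have h8 : 0 ≤ y ^ 5 := by positivity
        have h9 : 0 ≤ y ^ 3 := by positivity
        nlinarith

end Pool.Agent.R565.Sq
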