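import Mathlib
import Pool.Agent.R565.SqMain

/-!
# The graph `H^k_n` and its determinant
-/

set_option autoImplicit false

open Complex

namespace Pool.Agent.R565.Sq

/-- the edges of `H^k_n` (before symmetrisation): the path `0, 1, ..., k - 1`, the closing edge
`{0, k - 1}` of the cycle, the edge `{0, k}`, and the edges from the star centre `k` to `k + 1, ...` -/
def hRel (k i j : ℕ) : Prop :=
  (i + 1 = j ∧ j < k) ∨ (i = 0 ∧ j + 1 = k) ∨ (i = 0 ∧ j = k) ∨ (i = k ∧ k < j)

instance (k i j : ℕ) : Decidable (hRel k i j) := by unfold hRel; infer_instance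

/-- the graph `H^k_n` on `Fin n` -/
def H (k n : ℕ) : SimpleGraph (Fin n) := SimpleGraph.fromRel fun i j => hRel k i.val j.val

noncomputable def hent (k : ℕ) (y : ℂ) (x z : ℕ) : ℂ :=
  (if x = z then y else 0) + (if x ≠ z ∧ (hRel k x z ∨ hRel k z x) then I else 0)

theorem Mat_H (k n : ℕ) (y : ℝ) (i j : Fin n) :
    Mat (H k n) (fun _ => y) i j = hent k y i.val j.val := by
  simp [Mat, hent, H, Fin.ext_iff]

theorem hent_far (k : ℕ) (y : ℂ) (x z : ℕ) (hx : x ≤ k) (hz : k < z) :
    hent k y x z = if x = k then I else 0 := by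
  unfold hent
  rw [if_neg (by omega : ¬ x = z), zero_add]
  by_cases h : x = k
  · rw [if_pos h, if_pos (by unfold hRel; omega)]
  · rw [if_neg h, if_neg (by unfold hRel; omega)]

theorem hent_far' (k : ℕ) (y : ℂ) (x z : ℕ) (hx : k < x) (hz : z ≤ k) :
    hent k y x z = if z = k then I else 0 := by
  unfold hent
  rw [if_neg (by omega : ¬ x = z), zero_add]
  by_cases h : z = k
  · rw [if_pos h, if_pos (by unfold hRel; omega)]
  · rw [if_neg h, if_neg (by unfold hRel; omega)]

theorem hent_leaf (k : ℕ) (y : ℂ) (x z : ℕ) (hx : k < x) (hz : k < z) :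
    hent k y x z = if x = z then y else 0 := by
  unfold hent
  rw [if_neg (c := x ≠ z ∧ _) (by unfold hRel; omega), add_zero]

theorem hent_centre (k : ℕ) (y : ℂ) (x : ℕ) (hx : x < k) :
    hent k y x k = if x = 0 then I else 0 := by
  unfold hent
  rw [if_neg (by omega : ¬ x = k), zero_add]
  by_cases h : x = 0
  · rw [if_pos h, if_pos (by unfold hRel; omega)]
  · rw [if_neg h, if_neg (by unfold hRel; omega)]

theorem hent_centre' (k : ℕ) (y : ℂ) (x : ℕ) (hx : x < k) :
    hent k y k x = if x = 0 then I else 0 := by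
  unfold hent
  rw [if_neg (by omega : ¬ k = x), zero_add]
  by_cases h : x = 0
  · rw [if_pos h, if_pos (by unfold hRel; omega)]
  · rw [if_neg h, if_neg (by unfold hRel; omega)]

theorem hent_diag (k : ℕ) (y : ℂ) (x : ℕ) : hent k y x x = y := by
  simp [hent]

theorem hent_cyc (p : ℕ) (hp : 1 ≤ p) (y : ℂ) (x z : ℕ) (hx : x < p + 2) (hz : z < p + 2) :
    hent (p + 2) y x z = (if x = z then y else 0) + (if x + 1 = z ∨ z + 1 = x then I else 0) +
      (if (x = 0 ∧ z = p + 1) ∨ (x = p + 1 ∧ z = 0) then I else 0) := by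
  unfold hent
  rw [add_assoc]
  congr 1
  by_cases h1 : x + 1 = z ∨ z + 1 = x
  · rw [if_pos h1, if_neg (c := (x = 0 ∧ z = p + 1) ∨ (x = p + 1 ∧ z = 0)) (by omega), add_zero,
      if_pos (by unfold hRel; omega)]
  · rw [if_neg h1, zero_add]
    by_cases h2 : (x = 0 ∧ z = p + 1) ∨ (x = p + 1 ∧ z = 0)
    · rw [if_pos h2, if_pos (by unfold hRel; omega)]
    · rw [if_neg h2, if_neg (by unfold hRel; omega)]

noncomputable def ecast (n : ℕ) : Fin n ≃ (({Fin.last n}ᶜ : Set (Fin (n + 1))) : Type _) :=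
  Equiv.ofBijective (fun i => ⟨i.castSucc, by simp⟩) (by
    constructor
    · intro i j h
      have := congrArg Subtype.val h
      exact Fin.castSucc_injective _ this
    · rintro ⟨x, hx⟩
      have hx' : x ≠ Fin.last n := hx
      obtain ⟨i, hi⟩ := Fin.exists_castSucc_eq.2 hx'
      exact ⟨i, Subtype.ext hi⟩)

theorem ecast_val (n : ℕ) (i : Fin n) : ((ecast n i : (({Fin.last n}ᶜ : Set (Fin (n + 1))) : Type _)) :
    Fin (n + 1)) = i.castSucc := rfl

/-- weights of the cycle after eliminating the star -/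
noncomputable def aH (m : ℕ) (y : ℝ) : ℕ → ℝ := fun i => if i = 0 then y + 1 / (y + m / y) else y

theorem H_det (p m : ℕ) (hp : 1 ≤ p) (y : ℝ) (hy : 0 < y) :
    (Mat (H (p + 2) (p + 3 + m)) (fun _ => y)).det = (y : ℂ) ^ m * ((y : ℂ) + m / y) *
      (cyc (p + 1) (fun i => ((aH m y i : ℝ) : ℂ)) I).det := by
  have hy0 : (y : ℂ) ≠ 0 := by exact_mod_cast hy.ne'
  have hZ : 0 < y + m / y := by positivity
  have hZ0 : (y : ℂ) + m / y ≠ 0 := by exact_mod_cast hZ.ne'
  rw [← Matrix.det_submatrix_equiv_self (finSumFinEquiv (m := p + 3) (n := m))]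
  set A : Matrix (Fin (p + 3)) (Fin (p + 3)) ℂ := Matrix.of fun i j => hent (p + 2) y i.val j.val
    with hA
  set B : Matrix (Fin (p + 3)) (Fin m) ℂ := Matrix.of fun i _ => if i.val = p + 2 then I else 0
    with hB
  set C : Matrix (Fin m) (Fin (p + 3)) ℂ := Matrix.of fun _ i => if i.val = p + 2 then I else 0
    with hC
  set D : Matrix (Fin m) (Fin m) ℂ := Matrix.diagonal fun _ => (y : ℂ) with hD
  set Di : Matrix (Fin m) (Fin m) ℂ := Matrix.diagonal fun _ => (y : ℂ)⁻¹ with hDi
  have hblock : (Mat (H (p + 2) (p + 3 + m)) (fun _ => y)).submatrix finSumFinEquiv finSumFinEquiv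
      = Matrix.fromBlocks A B C D := by
    ext i j
    rw [Matrix.submatrix_apply, Mat_H]
    rcases i with i | i <;> rcases j with j | j
    · rw [Matrix.fromBlocks_apply₁₁]
      simp [hA]
    · rw [Matrix.fromBlocks_apply₁₂]
      rw [show (finSumFinEquiv (Sum.inl i) : Fin (p + 3 + m)).val = i.val by simp,
        show (finSumFinEquiv (Sum.inr j) : Fin (p + 3 + m)).val = p + 3 + j.val by simp]
      exact hent_far (p + 2) y _ _ (by omega) (by omega)
    · rw [Matrix.fromBlocks_apply₂₁]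
      rw [show (finSumFinEquiv (Sum.inl j) : Fin (p + 3 + m)).val = j.val by simp,
        show (finSumFinEquiv (Sum.inr i) : Fin (p + 3 + m)).val = p + 3 + i.val by simp]
      exact hent_far' (p + 2) y _ _ (by omega) (by omega)
    · rw [Matrix.fromBlocks_apply₂₂]
      rw [show (finSumFinEquiv (Sum.inr j) : Fin (p + 3 + m)).val = p + 3 + j.val by simp,
        show (finSumFinEquiv (Sum.inr i) : Fin (p + 3 + m)).val = p + 3 + i.val by simp,
        hent_leaf (p + 2) y _ _ (by omega) (by omega)]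
      simp only [hD, Matrix.diagonal_apply, Fin.ext_iff]
      by_cases h : i.val = j.val
      · rw [if_pos (by omega), if_pos h]
      · rw [if_neg (by omega), if_neg h]
  rw [hblock]
  have hm1 : Di * D = 1 := by
    rw [hD, hDi, Matrix.diagonal_mul_diagonal, ← Matrix.diagonal_one]
    congr 1
    ext i
    exact inv_mul_cancel₀ hy0
  have hm2 : D * Di = 1 := by
    rw [hD, hDi, Matrix.diagonal_mul_diagonal, ← Matrix.diagonal_one]
    congr 1
    ext i
    exact mul_inv_cancel₀ hy0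
  let _ : Invertible D := ⟨Di, hm1, hm2⟩
  have hinv : ⅟D = Di := rfl
  rw [Matrix.det_fromBlocks₂₂, hinv]
  have hdetD : D.det = (y : ℂ) ^ m := by
    rw [hD, Matrix.det_diagonal]; simp
  rw [hdetD]
  set M2 : Matrix (Fin (p + 3)) (Fin (p + 3)) ℂ := A - B * Di * C with hM2
  have hM2v : ∀ i j, M2 i j = hent (p + 2) y i.val j.val +
      (if i.val = p + 2 ∧ j.val = p + 2 then (m : ℂ) / y else 0) := by
    intro i j
    have e1 : (B * Di * C) i j = -(if i.val = p + 2 ∧ j.val = p + 2 then (m : ℂ) / y else 0) := by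
      rw [Matrix.mul_apply]
      simp only [hDi, Matrix.mul_diagonal, hB, hC, Matrix.of_apply, Finset.sum_const,
        Finset.card_univ, Fintype.card_fin]
      by_cases h1 : i.val = p + 2
      · by_cases h2 : j.val = p + 2
        · simp only [h1, h2, if_true, and_self, nsmul_eq_mul]
          have : I * I = -1 := I_mul_I
          field_simp
          rw [I_sq]
          ring
        · simp [h2]
      · simp [h1]
    rw [hM2, Matrix.sub_apply, e1, hA, Matrix.of_apply]
    ring
  have hlast : M2 (Fin.last (p + 2)) (Fin.last (p + 2)) = (y : ℂ) + m / y := by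
    rw [hM2v]
    simp [hent]
  rw [det_schur M2 (Fin.last (p + 2)) (by rw [hlast]; exact hZ0), hlast,
    ← Matrix.det_submatrix_equiv_self (ecast (p + 2)), ← mul_assoc]
  congr 2
  ext i j
  rw [Matrix.submatrix_apply, Matrix.of_apply, ecast_val, ecast_val, hM2v, hM2v, hM2v]
  have hi := i.2
  have hj := j.2
  rw [show (i.castSucc).val = i.val from rfl, show (j.castSucc).val = j.val from rfl,
    show (Fin.last (p + 2)).val = p + 2 from rfl]
  rw [if_neg (c := i.val = p + 2 ∧ j.val = p + 2) (by omega),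
    if_neg (c := i.val = p + 2 ∧ p + 2 = p + 2) (by omega),
    if_neg (c := p + 2 = p + 2 ∧ j.val = p + 2) (by omega), add_zero, add_zero, add_zero,
    hent_centre _ _ _ hi, hent_centre' _ _ _ hj, hent_cyc p hp _ _ _ hi hj]
  simp only [cyc, Matrix.of_apply, cent]
  have hI : I * I = -1 := I_mul_I
  by_cases hi0 : i.val = 0
  · have ha : aH m y i.val = y + 1 / (y + m / y) := by rw [hi0]; simp [aH]
    rw [ha]
    by_cases hj0 : j.val = 0
    · rw [if_pos hi0, if_pos hj0, hI]
      have hij : i.val = j.val := by omega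
      rw [if_pos hij, if_pos hij]
      push_cast
      ring
    · have hij : ¬ i.val = j.val := by omega
      rw [if_neg hj0, if_neg hij, if_neg hij]
      ring
  · have ha : aH m y i.val = y := by simp [aH, hi0]
    rw [ha, if_neg hi0]
    by_cases hij : i.val = j.val
    · rw [if_pos hij]
      ring
    · rw [if_neg hij]
      ring

theorem K_two (a : ℕ → ℂ) (s : ℕ) : K a s 2 = a s * a (s + 1) + 1 := by
  rw [show 2 = 0 + 2 from rfl, K_add_two, K_zero, show 0 + 1 = 1 from rfl, K_one]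

theorem K_three (a : ℕ → ℂ) (s : ℕ) :
    K a s 3 = a s * (a (s + 1) * a (s + 2) + 1) + a (s + 2) := by
  rw [show 3 = 1 + 2 from rfl, K_add_two, K_one, show 1 + 1 = 2 from rfl, K_two]

theorem K_four (a : ℕ → ℂ) (s : ℕ) :
    K a s 4 = a s * (a (s + 1) * (a (s + 2) * a (s + 3) + 1) + a (s + 3)) +
      (a (s + 2) * a (s + 3) + 1) := by
  rw [show 4 = 2 + 2 from rfl, K_add_two, K_two, show 2 + 1 = 3 from rfl, K_three]

/-- the quantities `T3`, `T5` are the exact values for `H^3_n`, `H^5_n` -/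
theorem H3_det (n : ℕ) (hn : 19 ≤ n) (y : ℝ) (hy : 0 < y) :
    ∃ P : ℝ, 0 < P ∧ (Mat (H 3 n) (fun _ => y)).det = P * (T3 n y - 2 * I) := by
  obtain ⟨m, rfl⟩ : ∃ m, n = 1 + 3 + m := ⟨n - 4, by omega⟩
  have hZ : 0 < y + m / y := by positivity
  refine ⟨y ^ m * (y + m / y), by positivity, ?_⟩
  have hc := cyc_det 1 (fun i => ((aH m y i : ℝ) : ℂ)) I (fun i hi => ⟨aH m y i, by
    unfold aH
    split_ifs
    · positivity
    · exact hy, rfl⟩)
  have e1 : (1 : ℝ) / (y + m / y) = y / (y ^ 2 + m) := by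
    field_simp
  have e2 : ((1 + 3 + m : ℕ) : ℝ) - 4 = m := by push_cast; ring
  have a0 : aH m y 0 = y + y / (y ^ 2 + m) := by simp only [aH, if_true, e1]
  have a1 : aH m y 1 = y := by simp [aH]
  have a2 : aH m y 2 = y := by simp [aH]
  have hT : T3 (1 + 3 + m) y = y * ((y + y / (y ^ 2 + m)) * y + 1) + (y + y / (y ^ 2 + m)) + y := by
    unfold T3
    rw [e2]
    ring
  rw [show 1 + 1 = 2 from rfl, K_two, K_one, K_one] at hc
  simp only [zero_add, a0, a1, a2] at hc
  rw [H_det 1 m le_rfl y hy, show 1 + 1 = 2 from rfl, hc, hT, neg_sq, I_sq]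
  push_cast
  ring

theorem H5_det (n : ℕ) (hn : 19 ≤ n) (y : ℝ) (hy : 0 < y) :
    ∃ P : ℝ, 0 < P ∧ (Mat (H 5 n) (fun _ => y)).det = P * (T5 n y + 2 * I) := by
  obtain ⟨m, rfl⟩ : ∃ m, n = 3 + 3 + m := ⟨n - 6, by omega⟩
  have hZ : 0 < y + m / y := by positivity
  refine ⟨y ^ m * (y + m / y), by positivity, ?_⟩
  have hc := cyc_det 3 (fun i => ((aH m y i : ℝ) : ℂ)) I (fun i hi => ⟨aH m y i, by
    unfold aH
    split_ifs
    · positivity
    · exact hy, rfl⟩)
  have e1 : (1 : ℝ) / (y + m / y) = y / (y ^ 2 + m) := by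
    field_simp
  have e2 : ((3 + 3 + m : ℕ) : ℝ) - 6 = m := by push_cast; ring
  have a0 : aH m y 0 = y + y / (y ^ 2 + m) := by simp only [aH, if_true, e1]
  have a1 : aH m y 1 = y := by simp [aH]
  have a2 : aH m y 2 = y := by simp [aH]
  have a3 : aH m y 3 = y := by simp [aH]
  have a4 : aH m y 4 = y := by simp [aH]
  have hT : T5 (3 + 3 + m) y = (y + y / (y ^ 2 + m)) * (y ^ 4 + 3 * y ^ 2 + 1) + 2 * y ^ 3
      + 4 * y := by
    unfold T5
    rw [e2]
    ring
  have hI4 : (-I) ^ 4 = 1 := by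
    rw [show (-I) ^ 4 = (I ^ 2) ^ 2 by ring, I_sq]; norm_num
  rw [show 3 + 1 = 4 from rfl, K_four, K_three, K_three] at hc
  simp only [zero_add, a0, a1, a2, a3, a4, Nat.reduceAdd] at hc
  rw [H_det 3 m (by norm_num) y hy, show 3 + 1 = 4 from rfl, hc, hT, hI4, I_sq]
  push_cast
  ring

end Pool.Agent.R565.Sq
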