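import Mathlib
import Pool.Agent.R565.SqMain

/-!
# The induction: removing leaves
-/

set_option autoImplicit false

open Complex

namespace Pool.Agent.R565.Sq

open scoped Classical in
theorem induction_main (N : ℕ) (hN : 19 ≤ N) (y : ℝ) (hy : 0 < y) : ∀ (m : ℕ) (V : Type)
    [Fintype V] [DecidableEq V] (G : SimpleGraph V) (w : V → ℝ) (s : V → ℕ),
    Fintype.card V = m → G.Connected →
    ∑ x, ∑ z, (if G.Adj x z then 1 else 0) = 2 * Fintype.card V →
    ¬ G.Colorable 2 → (∀ v, 1 ≤ s v) → ∑ v, s v = N →
    (∀ v, y ≤ w v) → (∀ v, w v ≤ y + (s v - 1) / y) →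
    (∀ v, 2 ≤ s v → y + y / (y ^ 2 + (s v - 2)) ≤ w v) → Concl N y (Mat G w).det := by
  intro m
  induction m with
  | zero =>
    intro V _ _ G w s hcard hc
    obtain ⟨v⟩ := hc.nonempty
    have : 0 < Fintype.card V := Fintype.card_pos_iff.2 ⟨v⟩
    omega
  | succ m ih =>
    intro V _ _ G w s hcard hc hE hcol hs1 hsN hw1 hwu hw2
    have hdeg : ∀ x, G.degree x = ∑ z, (if G.Adj x z then 1 else 0) := by
      intro x
      rw [← G.card_neighborFinset_eq_degree, Finset.sum_boole, Nat.cast_id]
      congr 1
      ext z; simp
    by_cases hleaf : ∃ v, G.degree v = 1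
    · -- remove a leaf
      obtain ⟨v, hv⟩ := hleaf
      obtain ⟨u, huv, huniq⟩ := SimpleGraph.degree_eq_one_iff_existsUnique_adj.1 hv
      have hadj : ∀ x, G.Adj v x ↔ x = u := fun x => ⟨fun h => huniq x h, fun h => h ▸ huv⟩
      have hvpos : 0 < w v := lt_of_lt_of_le hy (hw1 v)
      have hnuv : u ≠ v := fun h => G.loopless.irrefl v (h ▸ huv)
      rw [leaf_step G w v u hvpos hadj]
      have hcard' : Fintype.card (({v}ᶜ : Set V) : Type) = m := by
        have h := sum_compl (fun _ : V => 1) v
        simp only [Finset.sum_const, Finset.card_univ, smul_eq_mul, mul_one] at h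
        omega
      have hconn : (G.induce ({v}ᶜ : Set V)).Connected :=
        hc.induce_compl_singleton_of_degree_eq_one hv
      have hkey := ih (({v}ᶜ : Set V) : Type) (G.induce ({v}ᶜ : Set V))
        (fun x => w x + if (x : V) = u then 1 / w v else 0)
        (fun x => s x + if (x : V) = u then s v else 0) hcard' hconn ?_ ?_ ?_ ?_ ?_ ?_ ?_
      · obtain ⟨P, c, hP, h⟩ := hkey
        refine ⟨w v * P, c, mul_pos hvpos hP, ?_⟩
        rcases h with ⟨h1, h2⟩ | ⟨h1, h2⟩
        · left
          refine ⟨?_, h2⟩
          rw [h1]; push_cast; ring
        · right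
          refine ⟨?_, h2⟩
          rw [h1]; push_cast; ring
      · -- number of edges
        have e1 : ∀ x : V, ∑ z, (if G.Adj x z then 1 else 0) =
            (if G.Adj x v then 1 else 0) +
              ∑ z : (({v}ᶜ : Set V) : Type), (if G.Adj x z then 1 else 0) :=
          fun x => sum_compl (fun z => if G.Adj x z then 1 else 0) v
        have e2 := sum_compl (fun x : V => ∑ z, (if G.Adj x z then 1 else 0)) v
        rw [hE] at e2
        have e3 : ∑ z, (if G.Adj v z then 1 else 0) = 1 := by rw [← hdeg]; exact hv
        rw [e3] at e2
        have e4 : ∑ x : (({v}ᶜ : Set V) : Type), ∑ z, (if G.Adj x z then 1 else 0) =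
            ∑ x : (({v}ᶜ : Set V) : Type), (if G.Adj x v then 1 else 0) +
            ∑ x : (({v}ᶜ : Set V) : Type), ∑ z : (({v}ᶜ : Set V) : Type),
              (if G.Adj x z then 1 else 0) := by
          rw [← Finset.sum_add_distrib]
          exact Finset.sum_congr rfl fun x _ => e1 x
        have e5 : ∑ x : (({v}ᶜ : Set V) : Type), (if G.Adj x v then 1 else 0) = 1 := by
          have h := sum_compl (fun x : V => if G.Adj v x then 1 else 0) v
          rw [e3] at h
          simp only [SimpleGraph.irrefl, if_false, zero_add] at h
          refine Eq.trans (Finset.sum_congr rfl fun x _ => ?_) h.symm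
          simp only [G.adj_comm x v]
        rw [e5] at e4
        rw [e4] at e2
        simp only [SimpleGraph.comap_adj, Function.Embedding.subtype_apply]
        rw [hcard', ]
        rw [hcard] at e2
        omega
      · -- colourings
        rintro ⟨C⟩
        apply hcol
        have hu' : u ∈ ({v}ᶜ : Set V) := hnuv
        refine ⟨SimpleGraph.Coloring.mk
          (fun x => if h : x = v then 1 - C ⟨u, hu'⟩ else C ⟨x, h⟩) ?_⟩
        intro a b hab
        have hflip : ∀ t : Fin 2, 1 - t ≠ t := by decide
        by_cases ha : a = v
        · by_cases hb : b = v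
          · exact absurd (ha.trans hb.symm) hab.ne
          · have hbu : b = u := by
              apply huniq; rw [← ha]; exact hab
            simp only [dif_pos ha, dif_neg hb]
            subst hbu
            exact hflip _
        · by_cases hb : b = v
          · have hau : a = u := by
              apply huniq; rw [← hb]; exact hab.symm
            simp only [dif_pos hb, dif_neg ha]
            subst hau
            exact (hflip _).symm
          · simp only [dif_neg ha, dif_neg hb]
            exact C.valid (by simpa using hab)
      · intro x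
        have := hs1 x
        show 1 ≤ s x + _
        omega
      · have h := sum_compl s v
        rw [hsN] at h
        rw [Finset.sum_add_distrib, h, add_comm (s v)]
        congr 1
        have hu' : u ∈ ({v}ᶜ : Set V) := hnuv
        rw [Finset.sum_eq_single (⟨u, hu'⟩ : (({v}ᶜ : Set V) : Type))]
        · simp
        · intro b _ hb
          have : ¬ ((b : V) = u) := fun h => hb (Subtype.ext h)
          rw [if_neg this]
        · intro h; exact absurd (Finset.mem_univ _) h
      · intro x
        show y ≤ w x + _
        have h1 := hw1 x
        by_cases hx : (x : V) = u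
        · rw [if_pos hx]
          have : 0 < 1 / w v := by positivity
          linarith
        · rw [if_neg hx]; linarith
      · intro x
        show w x + _ ≤ y + (((s x + _ : ℕ) : ℝ) - 1) / y
        have h1 := hwu x
        by_cases hx : (x : V) = u
        · rw [if_pos hx, if_pos hx]
          have h2 : 1 / w v ≤ 1 / y := one_div_le_one_div_of_le hy (hw1 v)
          have h3 : (1 : ℝ) ≤ s v := by exact_mod_cast hs1 v
          have h4 : y + (((s x + s v : ℕ) : ℝ) - 1) / y = y + ((s x : ℝ) - 1) / y + (s v : ℝ) / y := by
            push_cast; ring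
          rw [h4]
          have h5 : 1 / y ≤ (s v : ℝ) / y := div_le_div_of_nonneg_right h3 hy.le
          linarith
        · rw [if_neg hx, if_neg hx]
          push_cast
          simpa using h1
      · intro x
        show 2 ≤ s x + _ → y + y / (y ^ 2 + (((s x + _ : ℕ) : ℝ) - 2)) ≤ w x + _
        by_cases hx : (x : V) = u
        · rw [if_pos hx, if_pos hx]
          intro _
          have h0 : (1 : ℝ) ≤ s x := by exact_mod_cast hs1 x
          have h3 : (1 : ℝ) ≤ s v := by exact_mod_cast hs1 v
          have h1 := hwu v
          have h4 : y + ((s v : ℝ) - 1) / y = (y ^ 2 + ((s v : ℝ) - 1)) / y := by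
            field_simp
          rw [h4] at h1
          have hy2 : 0 < y ^ 2 := by positivity
          have h5 : 0 < y ^ 2 + ((s v : ℝ) - 1) := by linarith
          have h6 : y / (y ^ 2 + ((s v : ℝ) - 1)) ≤ 1 / w v := by
            rw [le_div_iff₀ hvpos, div_mul_eq_mul_div, div_le_one h5]
            rw [le_div_iff₀ hy] at h1
            linarith
          have h7 : y / (y ^ 2 + (((s x + s v : ℕ) : ℝ) - 2)) ≤ y / (y ^ 2 + ((s v : ℝ) - 1)) := by
            apply div_le_div_of_nonneg_left hy.le h5
            push_cast
            linarith
          have h8 := hw1 x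
          linarith
        · rw [if_neg hx, if_neg hx]
          intro h
          have h1 := hw2 x (by omega)
          push_cast
          simpa using h1
    · -- no leaf: all degrees are two
      push Not at hleaf
      have hnt : Nontrivial V := by
        by_contra hcon
        rw [not_nontrivial_iff_subsingleton] at hcon
        apply hcol
        exact ⟨SimpleGraph.Coloring.mk (fun _ => 0) fun {a b} hab => absurd (Subsingleton.elim a b) hab.ne⟩
      have hge : ∀ v, 2 ≤ G.degree v := by
        intro v
        have h1 := hleaf v
        have h2 : 0 < G.degree v := hc.preconnected.degree_pos_of_nontrivial v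
        omega
      have hd : ∀ v, G.degree v = 2 := by
        have hsum : ∑ v, G.degree v = ∑ _v : V, 2 := by
          rw [Finset.sum_congr rfl fun x _ => hdeg x, hE, Finset.sum_const, Finset.card_univ]
          simp [mul_comm]
        intro v
        have := (Finset.sum_eq_sum_iff_of_le (s := Finset.univ) (f := fun _ : V => 2)
          (g := fun v => G.degree v) (fun i _ => hge i)).1 hsum.symm v (Finset.mem_univ v)
        exact this.symm
      exact base_case G hc hd hcol w s N hN y hy hs1 hsN hw1 hw2

/-- the determinant of `y + i A` for a connected non-bipartite graph with as many edges as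
vertices -/
theorem unicyclic_det {n : ℕ} (hn : 19 ≤ n) (G : SimpleGraph (Fin n)) (hc : G.Connected)
    (hE : Nat.card G.edgeSet = n) (hcol : ¬ G.Colorable 2) (y : ℝ) (hy : 0 < y) :
    Concl n y (Mat G (fun _ => y)).det := by
  classical
  refine induction_main n hn y hy n (Fin n) G (fun _ => y) (fun _ => 1) (Fintype.card_fin n) hc
    ?_ hcol (fun _ => le_rfl) (by simp) (fun _ => le_rfl) (fun _ => by simp) (fun _ h => by omega)
  have h1 := G.sum_degrees_eq_twice_card_edges
  have h2 : ∀ x, G.degree x = ∑ z, (if G.Adj x z then 1 else 0) := by
    intro x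
    rw [← G.card_neighborFinset_eq_degree, Finset.sum_boole, Nat.cast_id]
    congr 1
    ext z; simp
  rw [← Finset.sum_congr rfl fun x _ => h2 x, h1, Fintype.card_fin]
  congr 1
  have h3 : G.edgeFinset.card = Nat.card G.edgeSet := by
    rw [Nat.card_eq_fintype_card, ← G.edgeFinset_card]
  exact h3.trans hE

end Pool.Agent.R565.Sq
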