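import Mathlib
import Pool.Agent.R2.Util
import Pool.Agent.R565.SqAna
import Pool.Agent.R565.SqInd
import Pool.Agent.R565.SqH

/-!
# Assembly: square energies
-/

set_option autoImplicit false

open Complex

namespace Pool.Agent.R565.Sq

open scoped Classical in
/-- the adjacency eigenvalues of `G` (with multiplicity) -/
noncomputable def eig {n : ℕ} (G : SimpleGraph (Fin n)) (i : Fin n) : ℝ :=
  (G.isHermitian_adjMatrix ℝ).eigenvalues i

open scoped Classical in
theorem prod_eig {n : ℕ} (G : SimpleGraph (Fin n)) (y : ℝ) :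
    ∏ i, ((y : ℂ) + eig G i * I) = (Mat G (fun _ => y)).det := by
  have h1 := (G.isHermitian_adjMatrix ℝ).charpoly_eq
  have h2 : ((G.adjMatrix ℝ).map (algebraMap ℝ ℂ)).charpoly.eval (I * y) =
      ∏ i, (I * y - (eig G i : ℂ)) := by
    rw [Matrix.charpoly_map, h1, Polynomial.eval_map, Polynomial.eval₂_finsetProd]
    refine Finset.prod_congr rfl fun i _ => ?_
    simp [eig]
  rw [Matrix.eval_charpoly] at h2
  have h3 : Mat G (fun _ => y) = (-I) • (Matrix.scalar (Fin n) (I * (y : ℂ)) -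
      (G.adjMatrix ℝ).map (algebraMap ℝ ℂ)) := by
    ext i j
    simp only [Mat, Matrix.of_apply, Matrix.smul_apply, Matrix.sub_apply, Matrix.scalar_apply,
      Matrix.diagonal_apply, Matrix.map_apply, SimpleGraph.adjMatrix_apply, smul_eq_mul]
    by_cases hij : i = j
    · subst hij
      simp
      linear_combination (y : ℂ) * I_sq
    · by_cases ha : G.Adj i j
      · simp [hij, ha]
      · simp [hij, ha]
  rw [h3, Matrix.det_smul, h2, Fintype.card_fin, ← Fin.prod_const, ← Finset.prod_mul_distrib]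
  refine Finset.prod_congr rfl fun i _ => ?_
  linear_combination (y : ℂ) * I_sq

theorem sum_eig {n : ℕ} (G : SimpleGraph (Fin n)) : ∑ i, eig G i = 0 := by
  classical
  have := Pool.Agent.R2.Util.sum_eigenvalues (G.isHermitian_adjMatrix ℝ)
  simpa [eig] using this

open scoped Classical in
theorem sum_sq_eig {n : ℕ} (G : SimpleGraph (Fin n)) :
    ∑ i, eig G i ^ 2 = ((∑ u, ∑ v, (if G.Adj u v then 1 else 0) : ℕ) : ℝ) := by
  have := Pool.Agent.R2.Util.sum_sq_eigenvalues (G.isHermitian_adjMatrix ℝ)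
  unfold eig
  rw [this]
  push_cast
  refine Finset.sum_congr rfl fun u _ => Finset.sum_congr rfl fun v _ => ?_
  rw [SimpleGraph.adjMatrix_apply]
  split_ifs <;> norm_num

open scoped Classical in
theorem count_unicyclic {n : ℕ} (G : SimpleGraph (Fin n)) (hE : Nat.card G.edgeSet = n) :
    ∑ u, ∑ v, (if G.Adj u v then 1 else 0) = 2 * n := by
  have h1 := G.sum_degrees_eq_twice_card_edges
  have h2 : ∀ x, G.degree x = ∑ z, (if G.Adj x z then 1 else 0) := by
    intro x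
    rw [← G.card_neighborFinset_eq_degree, Finset.sum_boole, Nat.cast_id]
    congr 1
    ext z; simp
  rw [← Finset.sum_congr rfl fun x _ => h2 x, h1]
  congr 1
  have h3 : G.edgeFinset.card = Nat.card G.edgeSet := by
    rw [Nat.card_eq_fintype_card, ← G.edgeFinset_card]
  exact h3.trans hE

/-- the natural number indicator of adjacency in `H^k_n` -/
def hc (k x z : ℕ) : ℕ := if x ≠ z ∧ (hRel k x z ∨ hRel k z x) then 1 else 0

open scoped Classical in
theorem count_H (k m : ℕ) (hk : 3 ≤ k)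
    (hdec : ∑ i : Fin (k + 1), ∑ j : Fin (k + 1), hc k i.val j.val = 2 * (k + 1)) :
    ∑ u, ∑ v, (if (H k (k + 1 + m)).Adj u v then 1 else 0) = 2 * (k + 1 + m) := by
  have h0 : ∀ u v : Fin (k + 1 + m), (if (H k (k + 1 + m)).Adj u v then 1 else 0)
      = hc k u.val v.val := by
    intro u v
    simp [hc, H, Fin.ext_iff]
  simp only [h0]
  rw [Fin.sum_univ_add]
  simp only [Fin.sum_univ_add (a := k + 1), Fin.val_castAdd, Fin.val_natAdd]
  have e1 : ∀ i : Fin (k + 1), ∀ j : Fin m, hc k i.val (k + 1 + j.val) = if i = Fin.last k then 1 else 0 := by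
    intro i j
    unfold hc
    have hi := i.2
    by_cases h : i = Fin.last k
    · have h' : i.val = k := by rw [h]; rfl
      rw [if_pos h, if_pos (by unfold hRel; omega)]
    · have h' : i.val ≠ k := fun h'' => h (Fin.ext h'')
      rw [if_neg h, if_neg (by unfold hRel; omega)]
  have e2 : ∀ i : Fin (k + 1), ∀ j : Fin m, hc k (k + 1 + j.val) i.val = if i = Fin.last k then 1 else 0 := by
    intro i j
    unfold hc
    have hi := i.2
    by_cases h : i = Fin.last k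
    · have h' : i.val = k := by rw [h]; rfl
      rw [if_pos h, if_pos (by unfold hRel; omega)]
    · have h' : i.val ≠ k := fun h'' => h (Fin.ext h'')
      rw [if_neg h, if_neg (by unfold hRel; omega)]
  have e3 : ∀ i : Fin m, ∀ j : Fin m, hc k (k + 1 + i.val) (k + 1 + j.val) = 0 := by
    intro i j
    unfold hc
    rw [if_neg (by unfold hRel; omega)]
  simp only [e1, e2, e3, Finset.sum_add_distrib, hdec]
  simp
  ring

theorem D_split (l : ℝ) : (if 0 < l then l ^ 2 else 0) = (l ^ 2 + l * |l|) / 2 ∧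
    (if l < 0 then l ^ 2 else 0) = (l ^ 2 - l * |l|) / 2 := by
  rcases lt_trichotomy l 0 with h | h | h
  · rw [if_neg (by linarith), if_pos h, abs_of_neg h]
    constructor <;> ring
  · subst h; simp
  · rw [if_pos h, if_neg (by linarith), abs_of_pos h]
    constructor <;> ring

theorem T5_pos (n : ℕ) (hn : 19 ≤ n) (y : ℝ) (hy : 0 < y) : 0 < T5 n y := by
  have hn' : (19 : ℝ) ≤ n := by exact_mod_cast hn
  have h1 : 0 < y ^ 2 + ((n : ℝ) - 6) := by nlinarith [sq_nonneg y]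
  unfold T5
  positivity

theorem T3_pos (n : ℕ) (hn : 19 ≤ n) (y : ℝ) (hy : 0 < y) : 0 < T3 n y := by
  have hn' : (19 : ℝ) ≤ n := by exact_mod_cast hn
  have h1 : 0 < y ^ 2 + ((n : ℝ) - 4) := by nlinarith [sq_nonneg y]
  unfold T3
  positivity

theorem reim (P c s : ℝ) : ((P : ℂ) * (c + s * I)).re = P * c ∧ ((P : ℂ) * (c + s * I)).im = P * s := by
  constructor <;> simp

/-- shape of the determinant for an arbitrary unicyclic non-bipartite graph -/
theorem G_shape {n : ℕ} (hn : 19 ≤ n) (G : SimpleGraph (Fin n)) (hc : G.Connected)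
    (hE : Nat.card G.edgeSet = n) (hcol : ¬ G.Colorable 2) (y : ℝ) (hy : 0 < y) :
    ∃ P c s : ℝ, 0 < P ∧ 0 < c ∧ (∏ i, ((y : ℂ) + eig G i * I)).re = P * c ∧
      (∏ i, ((y : ℂ) + eig G i * I)).im = P * s ∧
      ((s = 2 ∧ T5 n y ≤ c) ∨ (s = -2 ∧ T3 n y ≤ c)) := by
  rw [prod_eig]
  obtain ⟨P, c, hP, h⟩ := unicyclic_det hn G hc hE hcol y hy
  rcases h with ⟨h1, h2⟩ | ⟨h1, h2⟩
  · refine ⟨P, c, 2, hP, lt_of_lt_of_le (T5_pos n hn y hy) h2, ?_, ?_, Or.inl ⟨rfl, h2⟩⟩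
    · rw [h1]; simp
    · rw [h1]; simp
  · refine ⟨P, c, -2, hP, lt_of_lt_of_le (T3_pos n hn y hy) h2, ?_, ?_, Or.inr ⟨rfl, h2⟩⟩
    · rw [h1]; simp
    · rw [h1]; simp

theorem H5_shape (n : ℕ) (hn : 19 ≤ n) (y : ℝ) (hy : 0 < y) :
    ∃ P : ℝ, 0 < P ∧ (∏ i, ((y : ℂ) + eig (H 5 n) i * I)).re = P * T5 n y ∧
      (∏ i, ((y : ℂ) + eig (H 5 n) i * I)).im = P * 2 := by
  rw [prod_eig]
  obtain ⟨P, hP, h1⟩ := H5_det n hn y hy
  refine ⟨P, hP, ?_, ?_⟩
  · rw [h1]; simp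
  · rw [h1]; simp

theorem H3_shape (n : ℕ) (hn : 19 ≤ n) (y : ℝ) (hy : 0 < y) :
    ∃ P : ℝ, 0 < P ∧ (∏ i, ((y : ℂ) + eig (H 3 n) i * I)).re = P * T3 n y ∧
      (∏ i, ((y : ℂ) + eig (H 3 n) i * I)).im = P * (-2) := by
  rw [prod_eig]
  obtain ⟨P, hP, h1⟩ := H3_det n hn y hy
  refine ⟨P, hP, ?_, ?_⟩
  · rw [h1]; simp
  · rw [h1]; simp

theorem D_ge {n : ℕ} (hn : 19 ≤ n) (G : SimpleGraph (Fin n)) (hc : G.Connected)
    (hE : Nat.card G.edgeSet = n) (hcol : ¬ G.Colorable 2) :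
    ∑ i, eig (H 5 n) i * |eig (H 5 n) i| ≤ ∑ i, eig G i * |eig G i| := by
  refine compare (eig G) (eig (H 5 n)) (sum_eig G) (sum_eig _) ?_ ?_ ?_
  · intro y hy
    obtain ⟨P, c, s, hP, hc0, h1, h2, h3⟩ := G_shape hn G hc hE hcol y hy
    rw [h1]; positivity
  · intro y hy
    obtain ⟨P, hP, h1, h2⟩ := H5_shape n hn y hy
    rw [h1]; exact mul_pos hP (T5_pos n hn y hy)
  · intro y hy
    obtain ⟨P, c, s, hP, hc0, h1, h2, h3⟩ := G_shape hn G hc hE hcol y hy
    obtain ⟨Q, hQ, h4, h5⟩ := H5_shape n hn y hy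
    rw [h1, h2, h4, h5, mul_div_mul_left _ _ hP.ne', mul_div_mul_left _ _ hQ.ne']
    have hT := T5_pos n hn y hy
    rcases h3 with ⟨rfl, h6⟩ | ⟨rfl, h6⟩
    · exact div_le_div_of_nonneg_left (by norm_num) hT h6
    · have e1 : (-2 : ℝ) / c ≤ 0 := div_nonpos_of_nonpos_of_nonneg (by norm_num) hc0.le
      have e2 : 0 ≤ 2 / T5 n y := by positivity
      linarith

theorem D_le {n : ℕ} (hn : 19 ≤ n) (G : SimpleGraph (Fin n)) (hc : G.Connected)
    (hE : Nat.card G.edgeSet = n) (hcol : ¬ G.Colorable 2) :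
    ∑ i, eig G i * |eig G i| ≤ ∑ i, eig (H 3 n) i * |eig (H 3 n) i| := by
  refine compare (eig (H 3 n)) (eig G) (sum_eig _) (sum_eig G) ?_ ?_ ?_
  · intro y hy
    obtain ⟨P, hP, h1, h2⟩ := H3_shape n hn y hy
    rw [h1]; exact mul_pos hP (T3_pos n hn y hy)
  · intro y hy
    obtain ⟨P, c, s, hP, hc0, h1, h2, h3⟩ := G_shape hn G hc hE hcol y hy
    rw [h1]; positivity
  · intro y hy
    obtain ⟨P, c, s, hP, hc0, h1, h2, h3⟩ := G_shape hn G hc hE hcol y hy
    obtain ⟨Q, hQ, h4, h5⟩ := H3_shape n hn y hy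
    rw [h1, h2, h4, h5, mul_div_mul_left _ _ hP.ne', mul_div_mul_left _ _ hQ.ne']
    have hT := T3_pos n hn y hy
    rcases h3 with ⟨rfl, h6⟩ | ⟨rfl, h6⟩
    · have e1 : (-2 : ℝ) / T3 n y ≤ 0 := div_nonpos_of_nonpos_of_nonneg (by norm_num) hT.le
      have e2 : 0 ≤ 2 / c := by positivity
      linarith
    · rw [neg_div, neg_div]
      exact neg_le_neg (div_le_div_of_nonneg_left (by norm_num) hT h6)

theorem sum_sq_H (k n : ℕ) (hk : k = 3 ∨ k = 5) (hn : 19 ≤ n) :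
    ∑ i, eig (H k n) i ^ 2 = 2 * n := by
  rw [sum_sq_eig]
  rcases hk with rfl | rfl
  · obtain ⟨m, rfl⟩ : ∃ m, n = 3 + 1 + m := ⟨n - 4, by omega⟩
    rw [count_H 3 m (by norm_num) (by decide)]
    push_cast; ring
  · obtain ⟨m, rfl⟩ : ∃ m, n = 5 + 1 + m := ⟨n - 6, by omega⟩
    rw [count_H 5 m (by norm_num) (by decide)]
    push_cast; ring

theorem sum_sq_G {n : ℕ} (G : SimpleGraph (Fin n)) (hE : Nat.card G.edgeSet = n) :
    ∑ i, eig G i ^ 2 = 2 * n := by
  rw [sum_sq_eig, count_unicyclic G hE]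
  push_cast; ring

end Pool.Agent.R565.Sq
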